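import Pool.Agent.Helper44.HU.Defs

/-!
# HU-1: algebra of `Q K`

All statements are polynomial identities in the nine entries (elements of the commutative ring
`T4 K`): unfold with `ext1` and `simp only [...]`, then `ring`. The statements with `bar` need
the lemmas `bar_mul` etc. first; `bar tau = -tau`.
-/

set_option linter.unusedSimpArgs false
set_option linter.unreachableTactic false
set_option linter.unusedTactic false

namespace Helper44.HU

open T4

variable {K : Type} [CommRing K]

namespace T4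

theorem bar_add (a b : T4 K) : bar (a + b) = bar a + bar b := by
  ext <;> simp <;> try ring

theorem bar_sub (a b : T4 K) : bar (a - b) = bar a - bar b := by
  ext <;> simp <;> try ring

theorem bar_neg (a : T4 K) : bar (-a) = -bar a := by
  ext <;> simp

theorem bar_mul (a b : T4 K) : bar (a * b) = bar a * bar b := by
  ext <;> simp <;> try ring

theorem bar_one : bar (1 : T4 K) = 1 := by
  ext <;> simp

theorem bar_zero : bar (0 : T4 K) = 0 := by
  ext <;> simp

theorem bar_tau : bar (tau : T4 K) = -tau := by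
  ext <;> simp

theorem bar_C (k : K) : bar (C k) = C k := by
  ext <;> simp

theorem bar_bar (a : T4 K) : bar (bar a) = a := by
  ext <;> simp

theorem C_add (a b : K) : C (a + b) = C a + C b := by
  ext <;> simp

theorem C_mul (a b : K) : C (a * b) = C a * C b := by
  ext <;> simp <;> try ring

theorem C_one : C (1 : K) = 1 := by
  ext <;> simp

end T4

namespace Q

/-- `Q K` is an algebra over `T4 K` -/
instance : Module (T4 K) (Q K) where
  one_smul g := by
    ext1 <;> simp only [smul_a, smul_b, smul_c, smul_d, smul_u, smul_v, smul_r, smul_s, smul_x] <;> ring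
  mul_smul k l g := by
    ext1 <;> simp only [smul_a, smul_b, smul_c, smul_d, smul_u, smul_v, smul_r, smul_s, smul_x] <;> ring
  smul_zero k := by
    ext1 <;> simp only [smul_a, smul_b, smul_c, smul_d, smul_u, smul_v, smul_r, smul_s, smul_x,
      zero_a, zero_b, zero_c, zero_d, zero_u, zero_v, zero_r, zero_s, zero_x] <;> ring
  smul_add k g h := by
    ext1 <;> simp only [smul_a, smul_b, smul_c, smul_d, smul_u, smul_v, smul_r, smul_s, smul_x,
      add_a, add_b, add_c, add_d, add_u, add_v, add_r, add_s, add_x] <;> ring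
  add_smul k l g := by
    ext1 <;> simp only [smul_a, smul_b, smul_c, smul_d, smul_u, smul_v, smul_r, smul_s, smul_x,
      add_a, add_b, add_c, add_d, add_u, add_v, add_r, add_s, add_x] <;> ring
  zero_smul g := by
    ext1 <;> simp only [smul_a, smul_b, smul_c, smul_d, smul_u, smul_v, smul_r, smul_s, smul_x,
      zero_a, zero_b, zero_c, zero_d, zero_u, zero_v, zero_r, zero_s, zero_x] <;> ring

instance : Algebra (T4 K) (Q K) :=
  Algebra.ofModule
    (fun k g h => by
      ext1 <;> simp only [smul_a, smul_b, smul_c, smul_d, smul_u, smul_v, smul_r, smul_s, smul_x,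
        mul_a, mul_b, mul_c, mul_d, mul_u, mul_v, mul_r, mul_s, mul_x] <;> ring)
    (fun k g h => by
      ext1 <;> simp only [smul_a, smul_b, smul_c, smul_d, smul_u, smul_v, smul_r, smul_s, smul_x,
        mul_a, mul_b, mul_c, mul_d, mul_u, mul_v, mul_r, mul_s, mul_x] <;> ring)

/-- second elementary symmetric function of the eigenvalues -/
def sig (g : Q K) : T4 K := tr (adj g)

theorem det_mul (g h : Q K) : det (g * h) = det g * det h := by
  simp only [det,
      mul_a, mul_b, mul_c, mul_d, mul_u, mul_v, mul_r, mul_s, mul_x,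
      add_a, add_b, add_c, add_d, add_u, add_v, add_r, add_s, add_x,
      sub_a, sub_b, sub_c, sub_d, sub_u, sub_v, sub_r, sub_s, sub_x,
      neg_a, neg_b, neg_c, neg_d, neg_u, neg_v, neg_r, neg_s, neg_x,
      one_a, one_b, one_c, one_d, one_u, one_v, one_r, one_s, one_x,
      smul_a, smul_b, smul_c, smul_d, smul_u, smul_v, smul_r, smul_s, smul_x]
  ring

theorem det_one : det (1 : Q K) = 1 := by
  simp only [det,
      mul_a, mul_b, mul_c, mul_d, mul_u, mul_v, mul_r, mul_s, mul_x,
      add_a, add_b, add_c, add_d, add_u, add_v, add_r, add_s, add_x,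
      sub_a, sub_b, sub_c, sub_d, sub_u, sub_v, sub_r, sub_s, sub_x,
      neg_a, neg_b, neg_c, neg_d, neg_u, neg_v, neg_r, neg_s, neg_x,
      one_a, one_b, one_c, one_d, one_u, one_v, one_r, one_s, one_x,
      smul_a, smul_b, smul_c, smul_d, smul_u, smul_v, smul_r, smul_s, smul_x]
  ring

theorem adj_mul (g h : Q K) : adj (g * h) = adj h * adj g := by
  ext1 <;>
    simp only [mul_a, mul_b, mul_c, mul_d, mul_u, mul_v, mul_r, mul_s, mul_x,
      add_a, add_b, add_c, add_d, add_u, add_v, add_r, add_s, add_x,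
      sub_a, sub_b, sub_c, sub_d, sub_u, sub_v, sub_r, sub_s, sub_x,
      neg_a, neg_b, neg_c, neg_d, neg_u, neg_v, neg_r, neg_s, neg_x,
      one_a, one_b, one_c, one_d, one_u, one_v, one_r, one_s, one_x,
      smul_a, smul_b, smul_c, smul_d, smul_u, smul_v, smul_r, smul_s, smul_x,
      adj] <;>
    ring

theorem adj_one : adj (1 : Q K) = 1 := by
  ext1 <;>
    simp only [mul_a, mul_b, mul_c, mul_d, mul_u, mul_v, mul_r, mul_s, mul_x,
      add_a, add_b, add_c, add_d, add_u, add_v, add_r, add_s, add_x,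
      sub_a, sub_b, sub_c, sub_d, sub_u, sub_v, sub_r, sub_s, sub_x,
      neg_a, neg_b, neg_c, neg_d, neg_u, neg_v, neg_r, neg_s, neg_x,
      one_a, one_b, one_c, one_d, one_u, one_v, one_r, one_s, one_x,
      smul_a, smul_b, smul_c, smul_d, smul_u, smul_v, smul_r, smul_s, smul_x,
      adj] <;>
    ring

theorem mul_adj (g : Q K) : g * adj g = det g • (1 : Q K) := by
  ext1 <;>
    simp only [mul_a, mul_b, mul_c, mul_d, mul_u, mul_v, mul_r, mul_s, mul_x,
      add_a, add_b, add_c, add_d, add_u, add_v, add_r, add_s, add_x,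
      sub_a, sub_b, sub_c, sub_d, sub_u, sub_v, sub_r, sub_s, sub_x,
      neg_a, neg_b, neg_c, neg_d, neg_u, neg_v, neg_r, neg_s, neg_x,
      one_a, one_b, one_c, one_d, one_u, one_v, one_r, one_s, one_x,
      smul_a, smul_b, smul_c, smul_d, smul_u, smul_v, smul_r, smul_s, smul_x,
      adj, det] <;>
    ring

theorem adj_mul_self (g : Q K) : adj g * g = det g • (1 : Q K) := by
  ext1 <;>
    simp only [mul_a, mul_b, mul_c, mul_d, mul_u, mul_v, mul_r, mul_s, mul_x,
      add_a, add_b, add_c, add_d, add_u, add_v, add_r, add_s, add_x,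
      sub_a, sub_b, sub_c, sub_d, sub_u, sub_v, sub_r, sub_s, sub_x,
      neg_a, neg_b, neg_c, neg_d, neg_u, neg_v, neg_r, neg_s, neg_x,
      one_a, one_b, one_c, one_d, one_u, one_v, one_r, one_s, one_x,
      smul_a, smul_b, smul_c, smul_d, smul_u, smul_v, smul_r, smul_s, smul_x,
      adj, det] <;>
    ring

theorem adj_adj (g : Q K) : adj (adj g) = det g • g := by
  ext1 <;>
    simp only [mul_a, mul_b, mul_c, mul_d, mul_u, mul_v, mul_r, mul_s, mul_x,
      add_a, add_b, add_c, add_d, add_u, add_v, add_r, add_s, add_x,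
      sub_a, sub_b, sub_c, sub_d, sub_u, sub_v, sub_r, sub_s, sub_x,
      neg_a, neg_b, neg_c, neg_d, neg_u, neg_v, neg_r, neg_s, neg_x,
      one_a, one_b, one_c, one_d, one_u, one_v, one_r, one_s, one_x,
      smul_a, smul_b, smul_c, smul_d, smul_u, smul_v, smul_r, smul_s, smul_x,
      adj, det] <;>
    ring

theorem tr_mul_comm (g h : Q K) : tr (g * h) = tr (h * g) := by
  simp only [tr,
      mul_a, mul_b, mul_c, mul_d, mul_u, mul_v, mul_r, mul_s, mul_x,
      add_a, add_b, add_c, add_d, add_u, add_v, add_r, add_s, add_x,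
      sub_a, sub_b, sub_c, sub_d, sub_u, sub_v, sub_r, sub_s, sub_x,
      neg_a, neg_b, neg_c, neg_d, neg_u, neg_v, neg_r, neg_s, neg_x,
      one_a, one_b, one_c, one_d, one_u, one_v, one_r, one_s, one_x,
      smul_a, smul_b, smul_c, smul_d, smul_u, smul_v, smul_r, smul_s, smul_x]
  ring

theorem tr_add (g h : Q K) : tr (g + h) = tr g + tr h := by
  simp only [tr,
      mul_a, mul_b, mul_c, mul_d, mul_u, mul_v, mul_r, mul_s, mul_x,
      add_a, add_b, add_c, add_d, add_u, add_v, add_r, add_s, add_x,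
      sub_a, sub_b, sub_c, sub_d, sub_u, sub_v, sub_r, sub_s, sub_x,
      neg_a, neg_b, neg_c, neg_d, neg_u, neg_v, neg_r, neg_s, neg_x,
      one_a, one_b, one_c, one_d, one_u, one_v, one_r, one_s, one_x,
      smul_a, smul_b, smul_c, smul_d, smul_u, smul_v, smul_r, smul_s, smul_x]
  ring

theorem tr_smul (k : T4 K) (g : Q K) : tr (k • g) = k * tr g := by
  simp only [tr,
      mul_a, mul_b, mul_c, mul_d, mul_u, mul_v, mul_r, mul_s, mul_x,
      add_a, add_b, add_c, add_d, add_u, add_v, add_r, add_s, add_x,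
      sub_a, sub_b, sub_c, sub_d, sub_u, sub_v, sub_r, sub_s, sub_x,
      neg_a, neg_b, neg_c, neg_d, neg_u, neg_v, neg_r, neg_s, neg_x,
      one_a, one_b, one_c, one_d, one_u, one_v, one_r, one_s, one_x,
      smul_a, smul_b, smul_c, smul_d, smul_u, smul_v, smul_r, smul_s, smul_x]
  ring

theorem tr_one : tr (1 : Q K) = 3 := by
  simp only [tr,
      mul_a, mul_b, mul_c, mul_d, mul_u, mul_v, mul_r, mul_s, mul_x,
      add_a, add_b, add_c, add_d, add_u, add_v, add_r, add_s, add_x,
      sub_a, sub_b, sub_c, sub_d, sub_u, sub_v, sub_r, sub_s, sub_x,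
      neg_a, neg_b, neg_c, neg_d, neg_u, neg_v, neg_r, neg_s, neg_x,
      one_a, one_b, one_c, one_d, one_u, one_v, one_r, one_s, one_x,
      smul_a, smul_b, smul_c, smul_d, smul_u, smul_v, smul_r, smul_s, smul_x]
  ring

/-- Cayley-Hamilton -/
theorem cayley (g : Q K) :
    g * g * g = tr g • (g * g) - sig g • g + det g • (1 : Q K) := by
  ext1 <;>
    simp only [mul_a, mul_b, mul_c, mul_d, mul_u, mul_v, mul_r, mul_s, mul_x,
      add_a, add_b, add_c, add_d, add_u, add_v, add_r, add_s, add_x,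
      sub_a, sub_b, sub_c, sub_d, sub_u, sub_v, sub_r, sub_s, sub_x,
      neg_a, neg_b, neg_c, neg_d, neg_u, neg_v, neg_r, neg_s, neg_x,
      one_a, one_b, one_c, one_d, one_u, one_v, one_r, one_s, one_x,
      smul_a, smul_b, smul_c, smul_d, smul_u, smul_v, smul_r, smul_s, smul_x,
      adj, det, tr, sig] <;>
    ring

theorem tr_sq (g : Q K) : tr (g * g) = tr g ^ 2 - 2 * sig g := by
  simp only [tr, sig, adj,
      mul_a, mul_b, mul_c, mul_d, mul_u, mul_v, mul_r, mul_s, mul_x,
      add_a, add_b, add_c, add_d, add_u, add_v, add_r, add_s, add_x,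
      sub_a, sub_b, sub_c, sub_d, sub_u, sub_v, sub_r, sub_s, sub_x,
      neg_a, neg_b, neg_c, neg_d, neg_u, neg_v, neg_r, neg_s, neg_x,
      one_a, one_b, one_c, one_d, one_u, one_v, one_r, one_s, one_x,
      smul_a, smul_b, smul_c, smul_d, smul_u, smul_v, smul_r, smul_s, smul_x]
  ring

theorem tr_sub_one (g : Q K) : tr (g - 1) = tr g - 3 := by
  simp only [tr,
      mul_a, mul_b, mul_c, mul_d, mul_u, mul_v, mul_r, mul_s, mul_x,
      add_a, add_b, add_c, add_d, add_u, add_v, add_r, add_s, add_x,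
      sub_a, sub_b, sub_c, sub_d, sub_u, sub_v, sub_r, sub_s, sub_x,
      neg_a, neg_b, neg_c, neg_d, neg_u, neg_v, neg_r, neg_s, neg_x,
      one_a, one_b, one_c, one_d, one_u, one_v, one_r, one_s, one_x,
      smul_a, smul_b, smul_c, smul_d, smul_u, smul_v, smul_r, smul_s, smul_x]
  ring

theorem sig_sub_one (g : Q K) : sig (g - 1) = sig g - 2 * tr g + 3 := by
  simp only [sig, adj, tr,
      mul_a, mul_b, mul_c, mul_d, mul_u, mul_v, mul_r, mul_s, mul_x,
      add_a, add_b, add_c, add_d, add_u, add_v, add_r, add_s, add_x,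
      sub_a, sub_b, sub_c, sub_d, sub_u, sub_v, sub_r, sub_s, sub_x,
      neg_a, neg_b, neg_c, neg_d, neg_u, neg_v, neg_r, neg_s, neg_x,
      one_a, one_b, one_c, one_d, one_u, one_v, one_r, one_s, one_x,
      smul_a, smul_b, smul_c, smul_d, smul_u, smul_v, smul_r, smul_s, smul_x]
  ring

theorem det_sub_one (g : Q K) : det (g - 1) = det g - sig g + tr g - 1 := by
  simp only [sig, adj, tr, det,
      mul_a, mul_b, mul_c, mul_d, mul_u, mul_v, mul_r, mul_s, mul_x,
      add_a, add_b, add_c, add_d, add_u, add_v, add_r, add_s, add_x,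
      sub_a, sub_b, sub_c, sub_d, sub_u, sub_v, sub_r, sub_s, sub_x,
      neg_a, neg_b, neg_c, neg_d, neg_u, neg_v, neg_r, neg_s, neg_x,
      one_a, one_b, one_c, one_d, one_u, one_v, one_r, one_s, one_x,
      smul_a, smul_b, smul_c, smul_d, smul_u, smul_v, smul_r, smul_s, smul_x]
  ring

theorem iota_mul (g h : Q K) : iota (g * h) = iota h * iota g := by
  ext1 <;>
    simp only [mul_a, mul_b, mul_c, mul_d, mul_u, mul_v, mul_r, mul_s, mul_x,
      add_a, add_b, add_c, add_d, add_u, add_v, add_r, add_s, add_x,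
      sub_a, sub_b, sub_c, sub_d, sub_u, sub_v, sub_r, sub_s, sub_x,
      neg_a, neg_b, neg_c, neg_d, neg_u, neg_v, neg_r, neg_s, neg_x,
      one_a, one_b, one_c, one_d, one_u, one_v, one_r, one_s, one_x,
      smul_a, smul_b, smul_c, smul_d, smul_u, smul_v, smul_r, smul_s, smul_x,
      iota, bar_add, bar_sub, bar_neg, bar_mul, bar_one, bar_zero, bar_tau, bar_bar] <;>
    ring

theorem iota_one : iota (1 : Q K) = 1 := by
  ext1 <;>
    simp only [mul_a, mul_b, mul_c, mul_d, mul_u, mul_v, mul_r, mul_s, mul_x,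
      add_a, add_b, add_c, add_d, add_u, add_v, add_r, add_s, add_x,
      sub_a, sub_b, sub_c, sub_d, sub_u, sub_v, sub_r, sub_s, sub_x,
      neg_a, neg_b, neg_c, neg_d, neg_u, neg_v, neg_r, neg_s, neg_x,
      one_a, one_b, one_c, one_d, one_u, one_v, one_r, one_s, one_x,
      smul_a, smul_b, smul_c, smul_d, smul_u, smul_v, smul_r, smul_s, smul_x,
      iota, bar_add, bar_sub, bar_neg, bar_mul, bar_one, bar_zero, bar_tau, bar_bar] <;>
    ring

theorem iota_add (g h : Q K) : iota (g + h) = iota g + iota h := by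
  ext1 <;>
    simp only [mul_a, mul_b, mul_c, mul_d, mul_u, mul_v, mul_r, mul_s, mul_x,
      add_a, add_b, add_c, add_d, add_u, add_v, add_r, add_s, add_x,
      sub_a, sub_b, sub_c, sub_d, sub_u, sub_v, sub_r, sub_s, sub_x,
      neg_a, neg_b, neg_c, neg_d, neg_u, neg_v, neg_r, neg_s, neg_x,
      one_a, one_b, one_c, one_d, one_u, one_v, one_r, one_s, one_x,
      smul_a, smul_b, smul_c, smul_d, smul_u, smul_v, smul_r, smul_s, smul_x,
      iota, bar_add, bar_sub, bar_neg, bar_mul, bar_one, bar_zero, bar_tau, bar_bar] <;>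
    ring

theorem iota_sub (g h : Q K) : iota (g - h) = iota g - iota h := by
  ext1 <;>
    simp only [mul_a, mul_b, mul_c, mul_d, mul_u, mul_v, mul_r, mul_s, mul_x,
      add_a, add_b, add_c, add_d, add_u, add_v, add_r, add_s, add_x,
      sub_a, sub_b, sub_c, sub_d, sub_u, sub_v, sub_r, sub_s, sub_x,
      neg_a, neg_b, neg_c, neg_d, neg_u, neg_v, neg_r, neg_s, neg_x,
      one_a, one_b, one_c, one_d, one_u, one_v, one_r, one_s, one_x,
      smul_a, smul_b, smul_c, smul_d, smul_u, smul_v, smul_r, smul_s, smul_x,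
      iota, bar_add, bar_sub, bar_neg, bar_mul, bar_one, bar_zero, bar_tau, bar_bar] <;>
    ring

theorem iota_neg (g : Q K) : iota (-g) = -iota g := by
  ext1 <;>
    simp only [mul_a, mul_b, mul_c, mul_d, mul_u, mul_v, mul_r, mul_s, mul_x,
      add_a, add_b, add_c, add_d, add_u, add_v, add_r, add_s, add_x,
      sub_a, sub_b, sub_c, sub_d, sub_u, sub_v, sub_r, sub_s, sub_x,
      neg_a, neg_b, neg_c, neg_d, neg_u, neg_v, neg_r, neg_s, neg_x,
      one_a, one_b, one_c, one_d, one_u, one_v, one_r, one_s, one_x,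
      smul_a, smul_b, smul_c, smul_d, smul_u, smul_v, smul_r, smul_s, smul_x,
      iota, bar_add, bar_sub, bar_neg, bar_mul, bar_one, bar_zero, bar_tau, bar_bar] <;>
    ring

theorem iota_smul (k : T4 K) (g : Q K) : iota (k • g) = bar k • iota g := by
  ext1 <;>
    simp only [mul_a, mul_b, mul_c, mul_d, mul_u, mul_v, mul_r, mul_s, mul_x,
      add_a, add_b, add_c, add_d, add_u, add_v, add_r, add_s, add_x,
      sub_a, sub_b, sub_c, sub_d, sub_u, sub_v, sub_r, sub_s, sub_x,
      neg_a, neg_b, neg_c, neg_d, neg_u, neg_v, neg_r, neg_s, neg_x,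
      one_a, one_b, one_c, one_d, one_u, one_v, one_r, one_s, one_x,
      smul_a, smul_b, smul_c, smul_d, smul_u, smul_v, smul_r, smul_s, smul_x,
      iota, bar_add, bar_sub, bar_neg, bar_mul, bar_one, bar_zero, bar_tau, bar_bar] <;>
    ring

theorem iota_iota (g : Q K) : iota (iota g) = g := by
  ext1 <;>
    simp only [mul_a, mul_b, mul_c, mul_d, mul_u, mul_v, mul_r, mul_s, mul_x,
      add_a, add_b, add_c, add_d, add_u, add_v, add_r, add_s, add_x,
      sub_a, sub_b, sub_c, sub_d, sub_u, sub_v, sub_r, sub_s, sub_x,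
      neg_a, neg_b, neg_c, neg_d, neg_u, neg_v, neg_r, neg_s, neg_x,
      one_a, one_b, one_c, one_d, one_u, one_v, one_r, one_s, one_x,
      smul_a, smul_b, smul_c, smul_d, smul_u, smul_v, smul_r, smul_s, smul_x,
      iota, bar_add, bar_sub, bar_neg, bar_mul, bar_one, bar_zero, bar_tau, bar_bar] <;>
    ring

theorem det_iota (g : Q K) : det (iota g) = bar (det g) := by
  simp only [iota, det, bar_add, bar_sub, bar_neg, bar_mul, bar_one, bar_zero, bar_tau, bar_bar,
      mul_a, mul_b, mul_c, mul_d, mul_u, mul_v, mul_r, mul_s, mul_x,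
      add_a, add_b, add_c, add_d, add_u, add_v, add_r, add_s, add_x,
      sub_a, sub_b, sub_c, sub_d, sub_u, sub_v, sub_r, sub_s, sub_x,
      neg_a, neg_b, neg_c, neg_d, neg_u, neg_v, neg_r, neg_s, neg_x,
      one_a, one_b, one_c, one_d, one_u, one_v, one_r, one_s, one_x,
      smul_a, smul_b, smul_c, smul_d, smul_u, smul_v, smul_r, smul_s, smul_x]
  ring

theorem adj_iota (g : Q K) : adj (iota g) = iota (adj g) := by
  ext1 <;>
    simp only [mul_a, mul_b, mul_c, mul_d, mul_u, mul_v, mul_r, mul_s, mul_x,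
      add_a, add_b, add_c, add_d, add_u, add_v, add_r, add_s, add_x,
      sub_a, sub_b, sub_c, sub_d, sub_u, sub_v, sub_r, sub_s, sub_x,
      neg_a, neg_b, neg_c, neg_d, neg_u, neg_v, neg_r, neg_s, neg_x,
      one_a, one_b, one_c, one_d, one_u, one_v, one_r, one_s, one_x,
      smul_a, smul_b, smul_c, smul_d, smul_u, smul_v, smul_r, smul_s, smul_x,
      adj, iota, bar_add, bar_sub, bar_neg, bar_mul, bar_one, bar_zero, bar_tau, bar_bar] <;>
    ring

theorem tr_iota (g : Q K) : tr (iota g) = bar (tr g) := by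
  simp only [tr, iota, bar_add, bar_sub, bar_neg, bar_mul, bar_one, bar_zero, bar_tau, bar_bar,
      mul_a, mul_b, mul_c, mul_d, mul_u, mul_v, mul_r, mul_s, mul_x,
      add_a, add_b, add_c, add_d, add_u, add_v, add_r, add_s, add_x,
      sub_a, sub_b, sub_c, sub_d, sub_u, sub_v, sub_r, sub_s, sub_x,
      neg_a, neg_b, neg_c, neg_d, neg_u, neg_v, neg_r, neg_s, neg_x,
      one_a, one_b, one_c, one_d, one_u, one_v, one_r, one_s, one_x,
      smul_a, smul_b, smul_c, smul_d, smul_u, smul_v, smul_r, smul_s, smul_x]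
  ring

end Q

end Helper44.HU
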