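import Pool.Agent.Helper44.HU.AntiDef

/-!
# HU-17: construction of anti-Hughes groups from functions on a group of exponent `p`
-/

namespace Helper44.HU

section Aux

variable (p : ℕ) {Γ : Type} [Group Γ] (Γ₀ : Subgroup Γ)

/-- the module `M` -/
private def MM : AddSubgroup (Γ → ZMod (p ^ 2)) where
  carrier := {x | (∀ g, (p : ZMod (p ^ 2)) * x g = p * x 1) ∧
    (∀ g h, h ∉ Γ₀ → ∑ j ∈ Finset.range p, x (g * h ^ j) = 0) ∧
    (∀ g h, h ∈ Γ₀ → ∑ j ∈ Finset.range p, x (g * h ^ j) = p * x g)}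
  zero_mem' := by
    refine ⟨fun g => by simp, fun g h _ => by simp, fun g h _ => by simp⟩
  add_mem' := by
    rintro x y ⟨hx1, hx2, hx3⟩ ⟨hy1, hy2, hy3⟩
    refine ⟨fun g => ?_, fun g h hh => ?_, fun g h hh => ?_⟩
    · simp only [Pi.add_apply, mul_add, hx1 g, hy1 g]
    · simp only [Pi.add_apply, Finset.sum_add_distrib, hx2 g h hh, hy2 g h hh, add_zero]
    · simp only [Pi.add_apply, Finset.sum_add_distrib, hx3 g h hh, hy3 g h hh, mul_add]
  neg_mem' := by
    rintro x ⟨hx1, hx2, hx3⟩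
    refine ⟨fun g => ?_, fun g h hh => ?_, fun g h hh => ?_⟩
    · simp only [Pi.neg_apply, mul_neg, hx1 g]
    · simp only [Pi.neg_apply, Finset.sum_neg_distrib, hx2 g h hh, neg_zero]
    · simp only [Pi.neg_apply, Finset.sum_neg_distrib, hx3 g h hh, mul_neg]

private lemma conj_pow_mul (g h γ : Γ) (j : ℕ) :
    g * h ^ j * γ = (g * γ) * (γ⁻¹ * h * γ) ^ j := by
  have h1 : (γ⁻¹ * h * γ) ^ j = γ⁻¹ * h ^ j * γ := by
    have := conj_pow (a := γ⁻¹) (b := h) (i := j)
    simpa using this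
  rw [h1]
  group

private def actFun [Γ₀.Normal] (γ : Γ) (x : MM p Γ₀) : MM p Γ₀ :=
  ⟨fun g => x.1 (g * γ), by
    obtain ⟨x, hx1, hx2, hx3⟩ := x
    refine ⟨fun g => ?_, fun g h hh => ?_, fun g h hh => ?_⟩
    · show (p : ZMod (p ^ 2)) * x (g * γ) = p * x (1 * γ)
      rw [hx1 (g * γ), hx1 (1 * γ)]
    · show ∑ j ∈ Finset.range p, x (g * h ^ j * γ) = 0
      have hh2 : γ⁻¹ * h * γ ∉ Γ₀ := by
        intro hc
        apply hh
        have := (inferInstance : Γ₀.Normal).conj_mem _ hc γ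
        have h2 : γ * (γ⁻¹ * h * γ) * γ⁻¹ = h := by group
        rwa [h2] at this
      have := hx2 (g * γ) _ hh2
      rw [← this]
      exact Finset.sum_congr rfl fun j _ => by rw [conj_pow_mul]
    · show ∑ j ∈ Finset.range p, x (g * h ^ j * γ) = p * x (g * γ)
      have hh2 : γ⁻¹ * h * γ ∈ Γ₀ := by
        have := (inferInstance : Γ₀.Normal).conj_mem _ hh γ⁻¹
        rwa [inv_inv] at this
      have := hx3 (g * γ) _ hh2
      rw [← this]
      exact Finset.sum_congr rfl fun j _ => by rw [conj_pow_mul]⟩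

private lemma actFun_apply [Γ₀.Normal] (γ : Γ) (x : MM p Γ₀) (g : Γ) :
    (actFun p Γ₀ γ x).1 g = x.1 (g * γ) := rfl

private def actEquiv [Γ₀.Normal] (γ : Γ) : MM p Γ₀ ≃+ MM p Γ₀ where
  toFun := actFun p Γ₀ γ
  invFun := actFun p Γ₀ γ⁻¹
  left_inv x := by
    apply Subtype.ext; funext g
    rw [actFun_apply, actFun_apply, inv_mul_cancel_right]
  right_inv x := by
    apply Subtype.ext; funext g
    rw [actFun_apply, actFun_apply, mul_inv_cancel_right]
  map_add' x y := rfl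

private def psi [Γ₀.Normal] : Γ →* MulAut (Multiplicative (MM p Γ₀)) where
  toFun γ := AddEquiv.toMultiplicative (actEquiv p Γ₀ γ)
  map_one' := by
    apply MulEquiv.ext; intro x
    apply Multiplicative.toAdd.injective
    apply Subtype.ext; funext g
    show x.1 (g * 1) = x.1 g
    rw [mul_one]
  map_mul' γ γ' := by
    apply MulEquiv.ext; intro x
    apply Multiplicative.toAdd.injective
    apply Subtype.ext; funext g
    show x.1 (g * (γ * γ')) = x.1 (g * γ * γ')
    rw [mul_assoc]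

private abbrev GG [Γ₀.Normal] : Type := Multiplicative (MM p Γ₀) ⋊[psi p Γ₀] Γ

private lemma psi_apply [Γ₀.Normal] (γ : Γ) (x : Multiplicative (MM p Γ₀)) (g : Γ) :
    (Multiplicative.toAdd (psi p Γ₀ γ x)).1 g = (Multiplicative.toAdd x).1 (g * γ) := rfl

private lemma pow_right [Γ₀.Normal] (a : GG p Γ₀) (n : ℕ) : (a ^ n).right = a.right ^ n :=
  map_pow SemidirectProduct.rightHom a n

private lemma pow_left [Γ₀.Normal] (a : GG p Γ₀) (n : ℕ) (g : Γ) :
    (Multiplicative.toAdd (a ^ n).left).1 g =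
      ∑ j ∈ Finset.range n, (Multiplicative.toAdd a.left).1 (g * a.right ^ j) := by
  induction n with
  | zero => simp
  | succ n ih =>
    have h : a ^ (n + 1) = a ^ n * a := pow_succ a n
    rw [h, SemidirectProduct.mul_left, Finset.sum_range_succ, ← ih, pow_right]
    rfl

private lemma pp_zero : (p : ZMod (p ^ 2)) * p = 0 := by
  have : ((p ^ 2 : ℕ) : ZMod (p ^ 2)) = 0 := ZMod.natCast_self _
  rw [← this]
  push_cast
  ring

private lemma p_ne_zero [Fact p.Prime] : (p : ZMod (p ^ 2)) ≠ 0 := by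
  intro h
  rw [ZMod.natCast_eq_zero_iff] at h
  have hp := (Fact.out : p.Prime)
  have := Nat.le_of_dvd hp.pos h
  have h2 := hp.two_le
  nlinarith

private lemma p_mul_cast (n m : ℕ) (h : (n : ZMod p) = m) :
    (p : ZMod (p ^ 2)) * n = p * m := by
  rw [ZMod.natCast_eq_natCast_iff] at h
  have h2 := Nat.ModEq.mul_left' p h
  rw [← pow_two] at h2
  have := (ZMod.natCast_eq_natCast_iff _ _ _).2 h2
  push_cast at this
  exact this

end Aux

/-- PROOF. `R = ZMod (p^2)`. `M` = additive subgroup of all `x : Γ → R` with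
(a) `p * x g = p * x 1` for all `g` (`x` is constant mod `p`);
(b) `∑ j ∈ range p, x (g * h^j) = 0` for all `g` and all `h ∉ Γ₀`;
(c) `∑ j ∈ range p, x (g * h^j) = p * x g` for all `g` and all `h ∈ Γ₀`.
`Γ` acts on `M` by `(γ • x) g = x (g * γ)` ((b), (c): `g h^j γ = (g γ) (γ⁻¹ h γ)^j`, `Γ₀` normal).
`G = Multiplicative M ⋊ Γ`. `Φ = 1 - p φ~ ∈ M` where `φ~ g = ((φ g).val : R)`: for (b)
`∑ Φ = p - p ∑ φ~`, and `∑ φ~` is `1` mod `p`; for (c) `∑ φ~` is `0` mod `p` and `p Φ = p`.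
`(x, h)^n = (∑ j ∈ range n, h^j • x, h^n)`, so `(x, h)^p = (∑ j ∈ range p, h^j • x, 1)`, which
is `1` if `h ∉ Γ₀` (and then the order is `p` as `h ≠ 1`), and `(p x, 1)` if `h ∈ Γ₀`.
So every element with order `≠ p` lies in `G₀ = {(x, h) : h ∈ Γ₀} = comap rightHom Γ₀`, which has
index `p^2`. Conversely if `h ∈ Γ₀` and `p x 1 ≠ 0` then `(x, h)^p ≠ 1`, so
`(x, h) ∈ hughes`; and if `p * x 1 = 0` then `(x, h) = (Φ, 1) * (x - Φ, h)` with both factors of
the first kind (`p * Φ 1 = p ≠ 0`). Hence `hughes p G = G₀`. It contains `(Φ, 1) ≠ 1`.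
`G` is a finite `p`-group because `(x, h)^(p^2) = (p ∑..., 1) = 1`: `(x,h)^p = (y, 1)`, `p y = 0`
(`y = 0` or `y = p x`). -/
theorem exists_antiHughes (p : ℕ) [Fact p.Prime] (Γ : Type) [Group Γ] [Finite Γ]
    (hexp : ∀ h : Γ, h ^ p = 1) (Γ₀ : Subgroup Γ) [Γ₀.Normal] (hidx : Γ₀.index = p ^ 2)
    (φ : Γ → ZMod p)
    (h1 : ∀ g h : Γ, h ∉ Γ₀ → ∑ j ∈ Finset.range p, φ (g * h ^ j) = 1)
    (h0 : ∀ g h : Γ, h ∈ Γ₀ → ∑ j ∈ Finset.range p, φ (g * h ^ j) = 0) :
    ∃ (G : Type) (_ : Group G), Finite G ∧ IsPGroup p G ∧ hughes p G ≠ ⊥ ∧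
      (hughes p G).index = p ^ 2 := by
  classical
  have hp := (Fact.out : p.Prime)
  -- the function `Φ`
  let Φf : Γ → ZMod (p ^ 2) := fun g => 1 - p * ((φ g).val : ZMod (p ^ 2))
  have hΦp : ∀ g, (p : ZMod (p ^ 2)) * Φf g = p := by
    intro g
    simp only [Φf]
    rw [mul_sub, mul_one, ← mul_assoc, pp_zero, zero_mul, sub_zero]
  have hΦs : ∀ g h, ∑ j ∈ Finset.range p, Φf (g * h ^ j) =
      p - p * ((∑ j ∈ Finset.range p, (φ (g * h ^ j)).val : ℕ) : ZMod (p ^ 2)) := by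
    intro g h
    simp only [Φf]
    rw [Finset.sum_sub_distrib, Finset.sum_const, Finset.card_range, nsmul_eq_mul, mul_one,
      ← Finset.mul_sum]
    push_cast
    rfl
  have hcast : ∀ g h, ((∑ j ∈ Finset.range p, (φ (g * h ^ j)).val : ℕ) : ZMod p) =
      ∑ j ∈ Finset.range p, φ (g * h ^ j) := by
    intro g h
    push_cast
    exact Finset.sum_congr rfl fun j _ => ZMod.natCast_zmod_val _
  let Φ : MM p Γ₀ := ⟨Φf, by
    refine ⟨fun g => ?_, fun g h hh => ?_, fun g h hh => ?_⟩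
    · rw [hΦp, hΦp]
    · rw [hΦs, p_mul_cast p _ 1 (by rw [hcast, h1 g h hh]; simp)]
      simp
    · rw [hΦs, p_mul_cast p _ 0 (by rw [hcast, h0 g h hh]; simp), hΦp]
      simp⟩
  -- powers
  have hpow1 : ∀ a : GG p Γ₀, a.right ∉ Γ₀ → a ^ p = 1 := by
    intro a ha
    apply SemidirectProduct.ext
    · apply Multiplicative.toAdd.injective
      apply Subtype.ext; funext g
      rw [pow_left]
      exact (Multiplicative.toAdd a.left).2.2.1 g _ ha
    · rw [pow_right, hexp]; rfl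
  have hpow0 : ∀ a : GG p Γ₀, a.right ∈ Γ₀ → ∀ g,
      (Multiplicative.toAdd (a ^ p).left).1 g = p * (Multiplicative.toAdd a.left).1 g := by
    intro a ha g
    rw [pow_left]
    exact (Multiplicative.toAdd a.left).2.2.2 g _ ha
  have hone : ∀ g : Γ, (Multiplicative.toAdd (1 : GG p Γ₀).left).1 g = 0 := fun g => rfl
  have hmem : ∀ a : GG p Γ₀, a.right ∈ Γ₀ →
      (p : ZMod (p ^ 2)) * (Multiplicative.toAdd a.left).1 1 ≠ 0 → a ∈ hughes p (GG p Γ₀) := by
    intro a ha h2
    apply Subgroup.subset_closure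
    intro h3
    apply h2
    rw [← hpow0 a ha 1]
    have h4 : a ^ p = 1 := orderOf_dvd_iff_pow_eq_one.1 (dvd_of_eq h3)
    rw [h4]
    exact hone 1
  have hG0 : hughes p (GG p Γ₀) = Γ₀.comap SemidirectProduct.rightHom := by
    apply le_antisymm
    · rw [hughes, Subgroup.closure_le]
      intro a ha
      by_contra hc
      apply ha
      have hc' : a.right ∉ Γ₀ := hc
      refine orderOf_eq_prime (hpow1 a hc') ?_
      rintro rfl
      exact hc' Γ₀.one_mem
    · intro a ha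
      have ha' : a.right ∈ Γ₀ := ha
      by_cases h2 : (p : ZMod (p ^ 2)) * (Multiplicative.toAdd a.left).1 1 = 0
      · have h3 : a = (⟨Multiplicative.ofAdd Φ, 1⟩ : GG p Γ₀) *
            ⟨Multiplicative.ofAdd (Multiplicative.toAdd a.left - Φ), a.right⟩ := by
          apply SemidirectProduct.ext
          · rw [SemidirectProduct.mul_left]
            simp only [map_one, MulAut.one_apply]
            rw [← ofAdd_add, add_sub_cancel]
            rfl
          · rw [SemidirectProduct.mul_right]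
            simp
        rw [h3]
        apply Subgroup.mul_mem
        · refine hmem _ Γ₀.one_mem ?_
          show (p : ZMod (p ^ 2)) * Φf 1 ≠ 0
          rw [hΦp]
          exact p_ne_zero p
        · refine hmem _ ha' ?_
          show (p : ZMod (p ^ 2)) * ((Multiplicative.toAdd a.left).1 1 - Φf 1) ≠ 0
          rw [mul_sub, h2, hΦp, zero_sub]
          exact neg_ne_zero.2 (p_ne_zero p)
      · exact hmem a ha' h2
  have hfin : Finite (ZMod (p ^ 2)) := by
    have : NeZero (p ^ 2) := ⟨pow_ne_zero 2 hp.ne_zero⟩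
    infer_instance
  refine ⟨GG p Γ₀, inferInstance, ?_, ?_, ?_, ?_⟩
  · have h2 : Finite (MM p Γ₀) := Subtype.finite
    have h3 : Finite (Multiplicative (MM p Γ₀)) := h2
    exact Finite.of_equiv _ (SemidirectProduct.equivProd (φ := psi p Γ₀)).symm
  · intro a
    refine ⟨2, ?_⟩
    have hpp : a ^ (p ^ 2) = (a ^ p) ^ p :=
      (congrArg (fun n : ℕ => a ^ n) (pow_two p)).trans (pow_mul a p p)
    rw [hpp]
    by_cases ha : a.right ∈ Γ₀
    · have hr : (a ^ p).right = 1 := by rw [pow_right, hexp]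
      apply SemidirectProduct.ext
      · apply Multiplicative.toAdd.injective
        apply Subtype.ext; funext g
        rw [hpow0 (a ^ p) (by rw [hr]; exact Γ₀.one_mem) g, hpow0 a ha g, ← mul_assoc, pp_zero,
          zero_mul]
        rfl
      · rw [pow_right, hr, one_pow]; rfl
    · rw [hpow1 a ha, one_pow]
  · intro hbot
    have h2 : (⟨Multiplicative.ofAdd Φ, 1⟩ : GG p Γ₀) ∈ hughes p (GG p Γ₀) := by
      refine hmem _ Γ₀.one_mem ?_
      show (p : ZMod (p ^ 2)) * Φf 1 ≠ 0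
      rw [hΦp]
      exact p_ne_zero p
    rw [hbot, Subgroup.mem_bot] at h2
    have h3 : (Multiplicative.toAdd (⟨Multiplicative.ofAdd Φ, 1⟩ : GG p Γ₀).left).1 1 = 0 := by
      rw [h2]; rfl
    have h4 : Φf 1 = 0 := h3
    have h5 := hΦp 1
    rw [h4, mul_zero] at h5
    exact p_ne_zero p h5.symm
  · rw [hG0, Subgroup.index_comap_of_surjective _ SemidirectProduct.rightHom_surjective, hidx]

end Helper44.HU
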