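import Pool.Agent.Helper44.HU.AntiA

/-!
# HU-18: the function `φ` from the function `F`
-/

namespace Helper44.HU

section Aux

variable (p : ℕ) [Fact p.Prime]

private lemma sum_range_cast (f : ZMod p → ZMod p) :
    ∑ j ∈ Finset.range p, f (j : ZMod p) = ∑ x : ZMod p, f x := by
  have : NeZero p := ⟨(Fact.out : p.Prime).ne_zero⟩
  refine Finset.sum_nbij' (fun j => (j : ZMod p)) (fun x => x.val) ?_ ?_ ?_ ?_ ?_
  · intro j _; exact Finset.mem_univ _
  · intro x _; exact Finset.mem_range.2 (ZMod.val_lt x)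
  · intro j hj; exact ZMod.val_cast_of_lt (Finset.mem_range.1 hj)
  · intro x _; exact ZMod.natCast_zmod_val x
  · intro j _; rfl

private lemma pow_eq_ite (y : ZMod p) : y ^ (p - 1) = if y = 0 then 0 else 1 := by
  have hp := (Fact.out : p.Prime).two_le
  split_ifs with h
  · rw [h, zero_pow (by omega)]
  · exact ZMod.pow_card_sub_one_eq_one h

private lemma pow_eq_sub (y : ZMod p) : y ^ (p - 1) = 1 - if y = 0 then 1 else 0 := by
  rw [pow_eq_ite]
  split_ifs <;> simp

private lemma card_zero : (∑ _x : ZMod p, (1 : ZMod p)) = 0 := by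
  rw [Finset.sum_const, Finset.card_univ, ZMod.card, nsmul_eq_mul, CharP.cast_eq_zero, zero_mul]

private lemma root_iff {a b : ZMod p} (hb : b ≠ 0) (x : ZMod p) :
    a + x * b = 0 ↔ x = -a / b := by
  rw [eq_div_iff hb, eq_neg_iff_add_eq_zero, add_comm]

private lemma sum_lin (a b : ZMod p) :
    ∑ x : ZMod p, (a + x * b) ^ (p - 1) = -b ^ (p - 1) := by
  have hp := (Fact.out : p.Prime).two_le
  by_cases hb : b = 0
  · subst hb
    simp only [mul_zero, add_zero]
    rw [zero_pow (by omega), neg_zero, Finset.sum_const, Finset.card_univ, ZMod.card,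
      nsmul_eq_mul, CharP.cast_eq_zero, zero_mul]
  · have h1 : ∀ x : ZMod p, (a + x * b) ^ (p - 1) = 1 - if x = -a / b then 1 else 0 := by
      intro x
      rw [pow_eq_sub]
      simp only [root_iff p hb]
    simp only [h1]
    rw [Finset.sum_sub_distrib, card_zero, Finset.sum_ite_eq' Finset.univ (-a / b),
      if_pos (Finset.mem_univ _), pow_eq_ite, if_neg hb]
    ring

private lemma sum_quad (a b c d : ZMod p) :
    ∑ x : ZMod p, (a + x * b) ^ (p - 1) * (c + x * d) ^ (p - 1) =
      -(a * d - c * b) ^ (p - 1) - b ^ (p - 1) * d ^ (p - 1) := by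
  have hp := (Fact.out : p.Prime).two_le
  by_cases hb : b = 0
  · subst hb
    simp only [mul_zero, add_zero, sub_zero]
    rw [← Finset.mul_sum, sum_lin, zero_pow (by omega), mul_pow]
    ring
  by_cases hd : d = 0
  · subst hd
    simp only [mul_zero, add_zero, zero_sub]
    rw [← Finset.sum_mul, sum_lin, zero_pow (by omega), mul_zero, sub_zero, neg_mul,
      pow_eq_ite p b, if_neg hb, one_mul, pow_eq_ite p c, pow_eq_ite p (-(c * b))]
    by_cases hc : c = 0
    · simp [hc]
    · simp [hc, hb]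
  have h1 : ∀ x : ZMod p, (a + x * b) ^ (p - 1) * (c + x * d) ^ (p - 1) =
      1 - (if x = -a / b then 1 else 0) - (if x = -c / d then 1 else 0) +
        (if x = -a / b then (if -a / b = -c / d then 1 else 0) else 0) := by
    intro x
    rw [pow_eq_sub, pow_eq_sub]
    simp only [root_iff p hb, root_iff p hd]
    by_cases h2 : x = -a / b
    · subst h2
      by_cases h3 : -a / b = -c / d
      · simp [h3]
      · simp [h3]
    · simp [h2]
  have h2 : (-a / b = -c / d) ↔ a * d - c * b = 0 := by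
    rw [div_eq_div_iff hb hd]
    constructor
    · intro h; linear_combination -h
    · intro h; linear_combination -h
  simp only [h1]
  rw [Finset.sum_add_distrib, Finset.sum_sub_distrib, Finset.sum_sub_distrib, card_zero,
    Finset.sum_ite_eq' Finset.univ (-a / b), Finset.sum_ite_eq' Finset.univ (-c / d),
    Finset.sum_ite_eq' Finset.univ (-a / b), if_pos (Finset.mem_univ _),
    if_pos (Finset.mem_univ _), if_pos (Finset.mem_univ _), pow_eq_sub p (a * d - c * b),
    pow_eq_ite p b, pow_eq_ite p d, if_neg hb, if_neg hd]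
  simp only [h2]
  ring

end Aux

/-- PROOF. `Γ₀ = ker (s, t)`, normal of index `p^2` by surjectivity of `(s, t) : Γ → (ZMod p)^2`.
`φ g = - (s g)^(p-1) - (t g)^(p-1) - F g + (s g)^(p-1) (t g)^(p-1)`. With
`s (g h^j) = s g + j s h`: `∑_j (s g + j s h)^(p-1) = - (s h)^(p-1)`, the same for `t`, and
`∑_j ((s g + j s h)(t g + j t h))^(p-1) = #{j : both factors nonzero}
  = - (s g t h - t g s h)^(p-1) - (s h)^(p-1) (t h)^(p-1)`
(if `s h, t h ≠ 0`: the roots `j` of the two factors are equal iff `ω = s g t h - t g s h = 0`,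
so the number is `p - 1` or `p - 2`; if `s h = 0 ≠ t h`: `(s g)^(p-1) (p-1)`; if both are `0`:
`p (...) = 0`). So `∑_j φ (g h^j) = (s h)^(p-1) + (t h)^(p-1) - (s h)^(p-1) (t h)^(p-1)`, which is
`0` if `s h = t h = 0` and `1` otherwise (Fermat). -/
theorem exists_antiHughes_of_F (p : ℕ) [Fact p.Prime] (Γ : Type) [Group Γ] [Finite Γ]
    (hexp : ∀ h : Γ, h ^ p = 1) (s t : Γ → ZMod p)
    (hs : ∀ g h, s (g * h) = s g + s h) (ht : ∀ g h, t (g * h) = t g + t h)
    (hst : ∀ a b, ∃ g, s g = a ∧ t g = b) (F : Γ → ZMod p)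
    (hF : ∀ g h : Γ, ∑ j ∈ Finset.range p, F (g * h ^ j) =
      -(s g * t h - t g * s h) ^ (p - 1)) :
    ∃ (G : Type) (_ : Group G), Finite G ∧ IsPGroup p G ∧ hughes p G ≠ ⊥ ∧
      (hughes p G).index = p ^ 2 := by
  have hp := (Fact.out : p.Prime)
  have hs1 : s 1 = 0 := by
    have := hs 1 1
    rw [mul_one] at this
    exact left_eq_add.1 this
  have ht1 : t 1 = 0 := by
    have := ht 1 1
    rw [mul_one] at this
    exact left_eq_add.1 this
  have hsp : ∀ (g h : Γ) (j : ℕ), s (g * h ^ j) = s g + j * s h := by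
    intro g h j
    induction j with
    | zero => simp
    | succ j ih =>
      rw [pow_succ, ← mul_assoc, hs, ih]
      push_cast
      ring
  have htp : ∀ (g h : Γ) (j : ℕ), t (g * h ^ j) = t g + j * t h := by
    intro g h j
    induction j with
    | zero => simp
    | succ j ih =>
      rw [pow_succ, ← mul_assoc, ht, ih]
      push_cast
      ring
  let S : Γ →* Multiplicative (ZMod p × ZMod p) :=
    { toFun := fun g => Multiplicative.ofAdd (s g, t g)
      map_one' := by rw [hs1, ht1]; rfl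
      map_mul' := fun g h => by rw [hs, ht]; rfl }
  have hS : ∀ g, S g = Multiplicative.ofAdd (s g, t g) := fun g => rfl
  have hker : ∀ g, g ∈ S.ker ↔ s g = 0 ∧ t g = 0 := by
    intro g
    rw [MonoidHom.mem_ker, hS]
    constructor
    · intro h
      have h2 : (s g, t g) = ((0, 0) : ZMod p × ZMod p) := Multiplicative.ofAdd.injective h
      exact ⟨congrArg Prod.fst h2, congrArg Prod.snd h2⟩
    · rintro ⟨h1, h2⟩
      rw [h1, h2]; rfl
  have hidx : S.ker.index = p ^ 2 := by
    have hsurj : Function.Surjective S := by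
      intro x
      obtain ⟨g, hg1, hg2⟩ := hst (Multiplicative.toAdd x).1 (Multiplicative.toAdd x).2
      refine ⟨g, ?_⟩
      rw [hS, hg1, hg2]
      rfl
    rw [Subgroup.index_ker, MonoidHom.range_eq_top.2 hsurj]
    have h2 : Nat.card (⊤ : Subgroup (Multiplicative (ZMod p × ZMod p))) =
        Nat.card (ZMod p × ZMod p) := Nat.card_congr
      ((Subgroup.topEquiv.toEquiv).trans Multiplicative.toAdd)
    rw [h2, Nat.card_prod, Nat.card_zmod, pow_two]
  let φ : Γ → ZMod p := fun g =>
    -(s g) ^ (p - 1) - (t g) ^ (p - 1) - F g + (s g) ^ (p - 1) * (t g) ^ (p - 1)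
  have hφ : ∀ g h : Γ, ∑ j ∈ Finset.range p, φ (g * h ^ j) =
      (s h) ^ (p - 1) + (t h) ^ (p - 1) - (s h) ^ (p - 1) * (t h) ^ (p - 1) := by
    intro g h
    simp only [φ]
    rw [Finset.sum_add_distrib, Finset.sum_sub_distrib, Finset.sum_sub_distrib, hF g h,
      Finset.sum_neg_distrib]
    simp only [hsp, htp]
    rw [sum_range_cast p (fun x => (s g + x * s h) ^ (p - 1)),
      sum_range_cast p (fun x => (t g + x * t h) ^ (p - 1)),
      sum_range_cast p (fun x => (s g + x * s h) ^ (p - 1) * (t g + x * t h) ^ (p - 1)),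
      sum_lin, sum_lin, sum_quad]
    ring
  refine exists_antiHughes p Γ hexp S.ker hidx φ ?_ ?_
  · intro g h hh
    rw [hφ]
    rw [hker] at hh
    rw [pow_eq_ite p (s h), pow_eq_ite p (t h)]
    by_cases h1 : s h = 0
    · have h2 : t h ≠ 0 := fun h2 => hh ⟨h1, h2⟩
      simp [h1, h2]
    · simp [h1]
  · intro g h hh
    rw [hker] at hh
    have h2 := hp.two_le
    rw [hφ, hh.1, hh.2, zero_pow (by omega)]
    ring

end Helper44.HU
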