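import Mathlib

/-!
# The Hughes subgroup
-/

namespace Helper44.HU

/-- the Hughes subgroup `H_p(G)`: generated by all elements whose order is not `p` -/
def hughes (p : ℕ) (G : Type*) [Group G] : Subgroup G :=
  Subgroup.closure {x : G | orderOf x ≠ p}

end Helper44.HU
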