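import Mathlib

/-!
# Anti-Hughes groups for all primes `p > 3` (problem MP_2bfd0d_al): basic definitions

* `T4 K` : truncated polynomials `K[τ]/(τ⁴)`, as quadruples.
* `Q K` : the ring of 3x3 matrices `((A, B), (τ C, X))`, block form 2+1, over `T4 K`,
  where the left lower block is stored without the factor `τ`.
* `Q.iota`, `Q.adj`, `Q.det`, `Q.tr`.
* `Gam K` : the group of all `g : Q K` with leading part `1`, `adj g = iota g`, `det g = 1`
  (a truncation of the positive part of the twisted loop group of `SL₃`).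
-/

namespace Helper44.HU

/-- truncated polynomials of length four -/
@[ext] structure T4 (K : Type) where
  e0 : K
  e1 : K
  e2 : K
  e3 : K

namespace T4

variable {K : Type} [CommRing K]

instance : Zero (T4 K) := ⟨⟨0, 0, 0, 0⟩⟩
instance : One (T4 K) := ⟨⟨1, 0, 0, 0⟩⟩
instance : Add (T4 K) := ⟨fun a b => ⟨a.e0 + b.e0, a.e1 + b.e1, a.e2 + b.e2, a.e3 + b.e3⟩⟩
instance : Neg (T4 K) := ⟨fun a => ⟨-a.e0, -a.e1, -a.e2, -a.e3⟩⟩
instance : Sub (T4 K) := ⟨fun a b => ⟨a.e0 - b.e0, a.e1 - b.e1, a.e2 - b.e2, a.e3 - b.e3⟩⟩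
instance : Mul (T4 K) := ⟨fun a b => ⟨a.e0 * b.e0, a.e0 * b.e1 + a.e1 * b.e0,
  a.e0 * b.e2 + a.e1 * b.e1 + a.e2 * b.e0,
  a.e0 * b.e3 + a.e1 * b.e2 + a.e2 * b.e1 + a.e3 * b.e0⟩⟩

@[simp] theorem zero_e0 : (0 : T4 K).e0 = 0 := rfl
@[simp] theorem zero_e1 : (0 : T4 K).e1 = 0 := rfl
@[simp] theorem zero_e2 : (0 : T4 K).e2 = 0 := rfl
@[simp] theorem zero_e3 : (0 : T4 K).e3 = 0 := rfl
@[simp] theorem one_e0 : (1 : T4 K).e0 = 1 := rfl
@[simp] theorem one_e1 : (1 : T4 K).e1 = 0 := rfl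
@[simp] theorem one_e2 : (1 : T4 K).e2 = 0 := rfl
@[simp] theorem one_e3 : (1 : T4 K).e3 = 0 := rfl
@[simp] theorem add_e0 (a b : T4 K) : (a + b).e0 = a.e0 + b.e0 := rfl
@[simp] theorem add_e1 (a b : T4 K) : (a + b).e1 = a.e1 + b.e1 := rfl
@[simp] theorem add_e2 (a b : T4 K) : (a + b).e2 = a.e2 + b.e2 := rfl
@[simp] theorem add_e3 (a b : T4 K) : (a + b).e3 = a.e3 + b.e3 := rfl
@[simp] theorem neg_e0 (a : T4 K) : (-a).e0 = -a.e0 := rfl
@[simp] theorem neg_e1 (a : T4 K) : (-a).e1 = -a.e1 := rfl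
@[simp] theorem neg_e2 (a : T4 K) : (-a).e2 = -a.e2 := rfl
@[simp] theorem neg_e3 (a : T4 K) : (-a).e3 = -a.e3 := rfl
@[simp] theorem sub_e0 (a b : T4 K) : (a - b).e0 = a.e0 - b.e0 := rfl
@[simp] theorem sub_e1 (a b : T4 K) : (a - b).e1 = a.e1 - b.e1 := rfl
@[simp] theorem sub_e2 (a b : T4 K) : (a - b).e2 = a.e2 - b.e2 := rfl
@[simp] theorem sub_e3 (a b : T4 K) : (a - b).e3 = a.e3 - b.e3 := rfl
@[simp] theorem mul_e0 (a b : T4 K) : (a * b).e0 = a.e0 * b.e0 := rfl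
@[simp] theorem mul_e1 (a b : T4 K) : (a * b).e1 = a.e0 * b.e1 + a.e1 * b.e0 := rfl
@[simp] theorem mul_e2 (a b : T4 K) :
    (a * b).e2 = a.e0 * b.e2 + a.e1 * b.e1 + a.e2 * b.e0 := rfl
@[simp] theorem mul_e3 (a b : T4 K) :
    (a * b).e3 = a.e0 * b.e3 + a.e1 * b.e2 + a.e2 * b.e1 + a.e3 * b.e0 := rfl

instance : CommRing (T4 K) where
  add_assoc a b c := by ext <;> simp <;> ring
  zero_add a := by ext <;> simp
  add_zero a := by ext <;> simp
  add_comm a b := by ext <;> simp <;> ring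
  neg_add_cancel a := by ext <;> simp
  sub_eq_add_neg a b := by ext <;> simp <;> ring
  mul_assoc a b c := by ext <;> simp <;> ring
  one_mul a := by ext <;> simp
  mul_one a := by ext <;> simp
  left_distrib a b c := by ext <;> simp <;> ring
  right_distrib a b c := by ext <;> simp <;> ring
  zero_mul a := by ext <;> simp
  mul_zero a := by ext <;> simp
  mul_comm a b := by ext <;> simp <;> ring
  nsmul := nsmulRec
  zsmul := zsmulRec

/-- the variable `τ` -/
def tau : T4 K := ⟨0, 1, 0, 0⟩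

@[simp] theorem tau_e0 : (tau : T4 K).e0 = 0 := rfl
@[simp] theorem tau_e1 : (tau : T4 K).e1 = 1 := rfl
@[simp] theorem tau_e2 : (tau : T4 K).e2 = 0 := rfl
@[simp] theorem tau_e3 : (tau : T4 K).e3 = 0 := rfl

/-- constants -/
def C (k : K) : T4 K := ⟨k, 0, 0, 0⟩

@[simp] theorem C_e0 (k : K) : (C k).e0 = k := rfl
@[simp] theorem C_e1 (k : K) : (C k).e1 = 0 := rfl
@[simp] theorem C_e2 (k : K) : (C k).e2 = 0 := rfl
@[simp] theorem C_e3 (k : K) : (C k).e3 = 0 := rfl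

/-- the automorphism `τ ↦ -τ` -/
def bar (a : T4 K) : T4 K := ⟨a.e0, -a.e1, a.e2, -a.e3⟩

@[simp] theorem bar_e0 (a : T4 K) : (bar a).e0 = a.e0 := rfl
@[simp] theorem bar_e1 (a : T4 K) : (bar a).e1 = -a.e1 := rfl
@[simp] theorem bar_e2 (a : T4 K) : (bar a).e2 = a.e2 := rfl
@[simp] theorem bar_e3 (a : T4 K) : (bar a).e3 = -a.e3 := rfl

end T4

open T4

/-- 3x3 matrices `((a, b, u), (c, d, v), (τ r, τ s, x))` over `T4 K`. -/
@[ext] structure Q (K : Type) where
  a : T4 K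
  b : T4 K
  c : T4 K
  d : T4 K
  u : T4 K
  v : T4 K
  r : T4 K
  s : T4 K
  x : T4 K

namespace Q

variable {K : Type} [CommRing K]

instance : Zero (Q K) := ⟨⟨0, 0, 0, 0, 0, 0, 0, 0, 0⟩⟩
instance : One (Q K) := ⟨⟨1, 0, 0, 1, 0, 0, 0, 0, 1⟩⟩
instance : Add (Q K) := ⟨fun g h => ⟨g.a + h.a, g.b + h.b, g.c + h.c, g.d + h.d, g.u + h.u,
  g.v + h.v, g.r + h.r, g.s + h.s, g.x + h.x⟩⟩
instance : Neg (Q K) := ⟨fun g => ⟨-g.a, -g.b, -g.c, -g.d, -g.u, -g.v, -g.r, -g.s, -g.x⟩⟩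
instance : Sub (Q K) := ⟨fun g h => ⟨g.a - h.a, g.b - h.b, g.c - h.c, g.d - h.d, g.u - h.u,
  g.v - h.v, g.r - h.r, g.s - h.s, g.x - h.x⟩⟩
instance : Mul (Q K) := ⟨fun g h =>
  ⟨g.a * h.a + g.b * h.c + tau * (g.u * h.r), g.a * h.b + g.b * h.d + tau * (g.u * h.s),
   g.c * h.a + g.d * h.c + tau * (g.v * h.r), g.c * h.b + g.d * h.d + tau * (g.v * h.s),
   g.a * h.u + g.b * h.v + g.u * h.x, g.c * h.u + g.d * h.v + g.v * h.x,
   g.r * h.a + g.s * h.c + g.x * h.r, g.r * h.b + g.s * h.d + g.x * h.s,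
   tau * (g.r * h.u + g.s * h.v) + g.x * h.x⟩⟩
/-- scalar multiplication by `T4 K` -/
instance : SMul (T4 K) (Q K) := ⟨fun k g => ⟨k * g.a, k * g.b, k * g.c, k * g.d, k * g.u,
  k * g.v, k * g.r, k * g.s, k * g.x⟩⟩

@[simp] theorem zero_a : (0 : Q K).a = 0 := rfl
@[simp] theorem zero_b : (0 : Q K).b = 0 := rfl
@[simp] theorem zero_c : (0 : Q K).c = 0 := rfl
@[simp] theorem zero_d : (0 : Q K).d = 0 := rfl
@[simp] theorem zero_u : (0 : Q K).u = 0 := rfl
@[simp] theorem zero_v : (0 : Q K).v = 0 := rfl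
@[simp] theorem zero_r : (0 : Q K).r = 0 := rfl
@[simp] theorem zero_s : (0 : Q K).s = 0 := rfl
@[simp] theorem zero_x : (0 : Q K).x = 0 := rfl
@[simp] theorem one_a : (1 : Q K).a = 1 := rfl
@[simp] theorem one_b : (1 : Q K).b = 0 := rfl
@[simp] theorem one_c : (1 : Q K).c = 0 := rfl
@[simp] theorem one_d : (1 : Q K).d = 1 := rfl
@[simp] theorem one_u : (1 : Q K).u = 0 := rfl
@[simp] theorem one_v : (1 : Q K).v = 0 := rfl
@[simp] theorem one_r : (1 : Q K).r = 0 := rfl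
@[simp] theorem one_s : (1 : Q K).s = 0 := rfl
@[simp] theorem one_x : (1 : Q K).x = 1 := rfl
@[simp] theorem add_a (g h : Q K) : (g + h).a = g.a + h.a := rfl
@[simp] theorem add_b (g h : Q K) : (g + h).b = g.b + h.b := rfl
@[simp] theorem add_c (g h : Q K) : (g + h).c = g.c + h.c := rfl
@[simp] theorem add_d (g h : Q K) : (g + h).d = g.d + h.d := rfl
@[simp] theorem add_u (g h : Q K) : (g + h).u = g.u + h.u := rfl
@[simp] theorem add_v (g h : Q K) : (g + h).v = g.v + h.v := rfl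
@[simp] theorem add_r (g h : Q K) : (g + h).r = g.r + h.r := rfl
@[simp] theorem add_s (g h : Q K) : (g + h).s = g.s + h.s := rfl
@[simp] theorem add_x (g h : Q K) : (g + h).x = g.x + h.x := rfl
@[simp] theorem neg_a (g : Q K) : (-g).a = -g.a := rfl
@[simp] theorem neg_b (g : Q K) : (-g).b = -g.b := rfl
@[simp] theorem neg_c (g : Q K) : (-g).c = -g.c := rfl
@[simp] theorem neg_d (g : Q K) : (-g).d = -g.d := rfl
@[simp] theorem neg_u (g : Q K) : (-g).u = -g.u := rfl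
@[simp] theorem neg_v (g : Q K) : (-g).v = -g.v := rfl
@[simp] theorem neg_r (g : Q K) : (-g).r = -g.r := rfl
@[simp] theorem neg_s (g : Q K) : (-g).s = -g.s := rfl
@[simp] theorem neg_x (g : Q K) : (-g).x = -g.x := rfl
@[simp] theorem sub_a (g h : Q K) : (g - h).a = g.a - h.a := rfl
@[simp] theorem sub_b (g h : Q K) : (g - h).b = g.b - h.b := rfl
@[simp] theorem sub_c (g h : Q K) : (g - h).c = g.c - h.c := rfl
@[simp] theorem sub_d (g h : Q K) : (g - h).d = g.d - h.d := rfl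
@[simp] theorem sub_u (g h : Q K) : (g - h).u = g.u - h.u := rfl
@[simp] theorem sub_v (g h : Q K) : (g - h).v = g.v - h.v := rfl
@[simp] theorem sub_r (g h : Q K) : (g - h).r = g.r - h.r := rfl
@[simp] theorem sub_s (g h : Q K) : (g - h).s = g.s - h.s := rfl
@[simp] theorem sub_x (g h : Q K) : (g - h).x = g.x - h.x := rfl
@[simp] theorem mul_a (g h : Q K) :
    (g * h).a = g.a * h.a + g.b * h.c + tau * (g.u * h.r) := rfl
@[simp] theorem mul_b (g h : Q K) :
    (g * h).b = g.a * h.b + g.b * h.d + tau * (g.u * h.s) := rfl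
@[simp] theorem mul_c (g h : Q K) :
    (g * h).c = g.c * h.a + g.d * h.c + tau * (g.v * h.r) := rfl
@[simp] theorem mul_d (g h : Q K) :
    (g * h).d = g.c * h.b + g.d * h.d + tau * (g.v * h.s) := rfl
@[simp] theorem mul_u (g h : Q K) : (g * h).u = g.a * h.u + g.b * h.v + g.u * h.x := rfl
@[simp] theorem mul_v (g h : Q K) : (g * h).v = g.c * h.u + g.d * h.v + g.v * h.x := rfl
@[simp] theorem mul_r (g h : Q K) : (g * h).r = g.r * h.a + g.s * h.c + g.x * h.r := rfl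
@[simp] theorem mul_s (g h : Q K) : (g * h).s = g.r * h.b + g.s * h.d + g.x * h.s := rfl
@[simp] theorem mul_x (g h : Q K) :
    (g * h).x = tau * (g.r * h.u + g.s * h.v) + g.x * h.x := rfl
@[simp] theorem smul_a (k : T4 K) (g : Q K) : (k • g).a = k * g.a := rfl
@[simp] theorem smul_b (k : T4 K) (g : Q K) : (k • g).b = k * g.b := rfl
@[simp] theorem smul_c (k : T4 K) (g : Q K) : (k • g).c = k * g.c := rfl
@[simp] theorem smul_d (k : T4 K) (g : Q K) : (k • g).d = k * g.d := rfl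
@[simp] theorem smul_u (k : T4 K) (g : Q K) : (k • g).u = k * g.u := rfl
@[simp] theorem smul_v (k : T4 K) (g : Q K) : (k • g).v = k * g.v := rfl
@[simp] theorem smul_r (k : T4 K) (g : Q K) : (k • g).r = k * g.r := rfl
@[simp] theorem smul_s (k : T4 K) (g : Q K) : (k • g).s = k * g.s := rfl
@[simp] theorem smul_x (k : T4 K) (g : Q K) : (k • g).x = k * g.x := rfl

instance : Ring (Q K) where
  add_assoc a b c := by ext1 <;> simp only [add_a, add_b, add_c, add_d, add_u, add_v, add_r, add_s, add_x] <;> ring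
  zero_add a := by ext1 <;> simp
  add_zero a := by ext1 <;> simp
  add_comm a b := by ext1 <;> simp only [add_a, add_b, add_c, add_d, add_u, add_v, add_r, add_s, add_x] <;> ring
  neg_add_cancel a := by ext1 <;> simp
  sub_eq_add_neg a b := by ext1 <;> simp [sub_eq_add_neg]
  mul_assoc a b c := by
    ext1 <;> simp only [mul_a, mul_b, mul_c, mul_d, mul_u, mul_v, mul_r, mul_s, mul_x] <;> ring
  one_mul a := by ext1 <;> simp
  mul_one a := by ext1 <;> simp
  left_distrib a b c := by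
    ext1 <;> simp only [mul_a, mul_b, mul_c, mul_d, mul_u, mul_v, mul_r, mul_s, mul_x,
      add_a, add_b, add_c, add_d, add_u, add_v, add_r, add_s, add_x] <;> ring
  right_distrib a b c := by
    ext1 <;> simp only [mul_a, mul_b, mul_c, mul_d, mul_u, mul_v, mul_r, mul_s, mul_x,
      add_a, add_b, add_c, add_d, add_u, add_v, add_r, add_s, add_x] <;> ring
  zero_mul a := by ext1 <;> simp
  mul_zero a := by ext1 <;> simp
  nsmul := nsmulRec
  zsmul := zsmulRec

/-- trace -/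
def tr (g : Q K) : T4 K := g.a + g.d + g.x

/-- determinant -/
def det (g : Q K) : T4 K :=
  (g.a * g.d - g.b * g.c) * g.x +
    tau * (g.u * (g.c * g.s - g.d * g.r) - g.v * (g.a * g.s - g.b * g.r))

/-- adjugate -/
def adj (g : Q K) : Q K where
  a := g.d * g.x - tau * (g.v * g.s)
  b := tau * (g.u * g.s) - g.b * g.x
  c := tau * (g.v * g.r) - g.c * g.x
  d := g.a * g.x - tau * (g.u * g.r)
  u := g.b * g.v - g.u * g.d
  v := g.u * g.c - g.a * g.v
  r := g.c * g.s - g.d * g.r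
  s := g.b * g.r - g.a * g.s
  x := g.a * g.d - g.b * g.c

/-- the anti-involution -/
def iota (g : Q K) : Q K where
  a := bar g.d
  b := -bar g.b
  c := -bar g.c
  d := bar g.a
  u := -bar g.s
  v := bar g.r
  r := bar g.v
  s := -bar g.u
  x := bar g.x

end Q

end Helper44.HU
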