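import Pool.Agent.Helper44.HU.SymDef

/-!
# HU-11: leading coefficients of the columns (see the header of SymDef.lean)
-/

namespace Helper44.HU

open T4 Q

variable {K : Type} [Field K]

section columns

variable (g : Q K) (P : Par K)

theorem top_u0 (hg : Low g) :
    HasTop2 (fun t => (g * expQ P.toQ t).u.e0) 0 P.v0 g.u.e0 := by
  refine hasTop2_one _ _ fun t => ?_
  rw [P.exp_eq]
  simp [Par.toQ, hg.a0, hg.b0]
  ring

theorem top_v0 (hg : Low g) :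
    HasTop2 (fun t => (g * expQ P.toQ t).v.e0) 0 P.v1 g.v.e0 := by
  refine hasTop2_one _ _ fun t => ?_
  rw [P.exp_eq]
  simp [Par.toQ, hg.c0, hg.d0]
  ring

theorem top_u1 (hg : Low g) :
    HasTop2 (fun t => (g * expQ P.toQ t).u.e1) 1 (-(P.z / 2 * P.v0))
      (Av0 g P + P.w0 - 2 * P.z * g.u.e0) := by
  refine hasTop2_two (g.u.e1) _ _ fun t => ?_
  rw [P.exp_eq]
  simp [Par.toQ, Av0, hg.a0, hg.b0]
  ring

theorem top_v1 (hg : Low g) :
    HasTop2 (fun t => (g * expQ P.toQ t).v.e1) 1 (-(P.z / 2 * P.v1))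
      (Av1 g P + P.w1 - 2 * P.z * g.v.e0) := by
  refine hasTop2_two (g.v.e1) _ _ fun t => ?_
  rw [P.exp_eq]
  simp [Par.toQ, Av1, hg.c0, hg.d0]
  ring

theorem top_u2 (hg : Low g) :
    HasTop2 (fun t => (g * expQ P.toQ t).u.e2) 2 (P.T / 6 * P.v0)
      ((P.q1 * P.v0 + P.q2 * P.v1 - P.z * P.w0 - P.z * Av0 g P
        + (P.E + 4 * P.z ^ 2) * g.u.e0) / 2) := by
  refine hasTop2_three (g.u.e2) ((g * P.toQ).u.e2) _ _ fun t => ?_
  rw [P.exp_eq]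
  simp [Par.toQ, Av0, Par.E, hg.a0, hg.b0]
  ring

theorem top_v2 (hg : Low g) :
    HasTop2 (fun t => (g * expQ P.toQ t).v.e2) 2 (P.T / 6 * P.v1)
      ((P.q3 * P.v0 - P.q1 * P.v1 - P.z * P.w1 - P.z * Av1 g P
        + (P.E + 4 * P.z ^ 2) * g.v.e0) / 2) := by
  refine hasTop2_three (g.v.e2) ((g * P.toQ).v.e2) _ _ fun t => ?_
  rw [P.exp_eq]
  simp [Par.toQ, Av1, Par.E, hg.c0, hg.d0]
  ring

theorem top_u3 (hg : Low g) :
    HasTop2 (fun t => (g * expQ P.toQ t).u.e3) 3 ((P.D - P.z * P.T) / 24 * P.v0)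
      ((P.T * (P.w0 + Av0 g P) + g.u.e0 * (P.D - 2 * P.z * P.T)) / 6) := by
  refine hasTop2_four (g.u.e3) ((g * P.toQ).u.e3) ((g * (P.toQ * P.toQ)).u.e3 / 2) _ _
    fun t => ?_
  rw [P.exp_eq]
  simp [Par.toQ, Av0, hg.a0, hg.b0]
  ring

theorem top_v3 (hg : Low g) :
    HasTop2 (fun t => (g * expQ P.toQ t).v.e3) 3 ((P.D - P.z * P.T) / 24 * P.v1)
      ((P.T * (P.w1 + Av1 g P) + g.v.e0 * (P.D - 2 * P.z * P.T)) / 6) := by
  refine hasTop2_four (g.v.e3) ((g * P.toQ).v.e3) ((g * (P.toQ * P.toQ)).v.e3 / 2) _ _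
    fun t => ?_
  rw [P.exp_eq]
  simp [Par.toQ, Av1, hg.c0, hg.d0]
  ring

end columns

end Helper44.HU
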