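import Pool.Agent.Helper44.HU.SymDef

/-!
# HU-10: leading coefficients of the rows (see the header of SymDef.lean)
-/

namespace Helper44.HU

open T4 Q

variable {K : Type} [Field K]

section rows

variable (g : Q K) (P : Par K)

private theorem symR_r (t : K) : (g * expQ P.toQ t).r =
    (⟨1, 0, 0, t ^ 3 / 6 * P.D⟩ : T4 K) * g.r +
      (⟨t, 0, t ^ 3 / 6 * P.T, t ^ 4 / 24 * P.D⟩ : T4 K) * (g * P.toQ).r +
      (⟨t ^ 2 / 2, 0, t ^ 4 / 24 * P.T, 0⟩ : T4 K) * (g * (P.toQ * P.toQ)).r := by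
  rw [P.exp_eq]
  generalize P.toQ * P.toQ = V
  generalize P.toQ = U
  simp only [mul_r, add_a, add_c, add_r, smul_a, smul_c, smul_r, one_a, one_c, one_r]
  ring

private theorem symR_s (t : K) : (g * expQ P.toQ t).s =
    (⟨1, 0, 0, t ^ 3 / 6 * P.D⟩ : T4 K) * g.s +
      (⟨t, 0, t ^ 3 / 6 * P.T, t ^ 4 / 24 * P.D⟩ : T4 K) * (g * P.toQ).s +
      (⟨t ^ 2 / 2, 0, t ^ 4 / 24 * P.T, 0⟩ : T4 K) * (g * (P.toQ * P.toQ)).s := by
  rw [P.exp_eq]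
  generalize P.toQ * P.toQ = V
  generalize P.toQ = U
  simp only [mul_s, add_b, add_d, add_s, smul_b, smul_d, smul_s, one_b, one_d, one_s]
  ring

private theorem symR_r1 (hg : Low g) : (g * P.toQ).r.e0 = -P.v1 ∧
    (g * P.toQ).r.e1 = -(g.v.e0 * P.z) - g.x.e1 * P.v1 + P.w1 := by
  constructor
  · simp only [mul_r, add_e0, mul_e0, Par.toQ, hg.x0]
    ring
  · simp only [mul_r, add_e1, mul_e1, Par.toQ, hg.x0, hg.r0]
    ring

private theorem symR_s1 (hg : Low g) : (g * P.toQ).s.e0 = P.v0 ∧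
    (g * P.toQ).s.e1 = g.u.e0 * P.z + g.x.e1 * P.v0 - P.w0 := by
  constructor
  · simp only [mul_s, add_e0, mul_e0, Par.toQ, hg.x0]
    ring
  · simp only [mul_s, add_e1, mul_e1, Par.toQ, hg.x0, hg.s0]
    ring

private theorem symR_r2 (hg : Low g) : (g * (P.toQ * P.toQ)).r.e0 = 0 ∧
    (g * (P.toQ * P.toQ)).r.e1 = -((om g P - P.z) * P.v1) ∧
    (g * (P.toQ * P.toQ)).r.e2 = -(c3v g P * P.v1) -
      (P.z ^ 2 + (P.v0 * P.w1 - P.v1 * P.w0)) * g.v.e0 + g.x.e1 * P.z * P.v1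
        + (P.v0 * P.q3 - P.v1 * P.q1) - P.z * P.w1 := by
  obtain ⟨ha, -, hc, -, -, -, hr, -, -⟩ := P.sq_low
  have a0 := congrArg T4.e0 ha
  have a1 := congrArg T4.e1 ha
  have a2 := congrArg T4.e2 ha
  have c0 := congrArg T4.e0 hc
  have c1 := congrArg T4.e1 hc
  have c2 := congrArg T4.e2 hc
  have r0 := congrArg T4.e0 hr
  have r1 := congrArg T4.e1 hr
  have r2 := congrArg T4.e2 hr
  clear ha hc hr
  generalize P.toQ * P.toQ = V at *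
  simp only at a0 a1 a2 c0 c1 c2 r0 r1 r2
  refine ⟨?_, ?_, ?_⟩
  · simp only [mul_r, add_e0, mul_e0, a0, c0, r0]
    ring
  · simp only [mul_r, add_e1, mul_e1, a0, a1, c0, c1, r0, r1, hg.r0, hg.s0, hg.x0, om]
    ring
  · simp only [mul_r, add_e2, mul_e2, a0, a1, a2, c0, c1, c2, r0, r1, r2, hg.r0, hg.s0, hg.x0,
      c3v]
    ring

private theorem symR_s2 (hg : Low g) : (g * (P.toQ * P.toQ)).s.e0 = 0 ∧
    (g * (P.toQ * P.toQ)).s.e1 = (om g P - P.z) * P.v0 ∧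
    (g * (P.toQ * P.toQ)).s.e2 = c3v g P * P.v0 +
      (P.z ^ 2 + (P.v0 * P.w1 - P.v1 * P.w0)) * g.u.e0 - g.x.e1 * P.z * P.v0
        + (-(P.v1 * P.q2) - P.v0 * P.q1) + P.z * P.w0 := by
  obtain ⟨-, ha, -, hc, -, -, -, hr, -⟩ := P.sq_low
  have a0 := congrArg T4.e0 ha
  have a1 := congrArg T4.e1 ha
  have a2 := congrArg T4.e2 ha
  have c0 := congrArg T4.e0 hc
  have c1 := congrArg T4.e1 hc
  have c2 := congrArg T4.e2 hc
  have r0 := congrArg T4.e0 hr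
  have r1 := congrArg T4.e1 hr
  have r2 := congrArg T4.e2 hr
  clear ha hc hr
  generalize P.toQ * P.toQ = V at *
  simp only at a0 a1 a2 c0 c1 c2 r0 r1 r2
  refine ⟨?_, ?_, ?_⟩
  · simp only [mul_s, add_e0, mul_e0, a0, c0, r0]
    ring
  · simp only [mul_s, add_e1, mul_e1, a0, a1, c0, c1, r0, r1, hg.r0, hg.s0, hg.x0, om]
    ring
  · simp only [mul_s, add_e2, mul_e2, a0, a1, a2, c0, c1, c2, r0, r1, r2, hg.r0, hg.s0, hg.x0,
      c3v]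
    ring

theorem top_r0 (hg : Low g) :
    HasTop2 (fun t => (g * expQ P.toQ t).r.e0) 0 (-P.v1) (-g.v.e0) := by
  refine hasTop2_one _ _ fun t => ?_
  obtain ⟨h1, -⟩ := symR_r1 g P hg
  obtain ⟨h2, -, -⟩ := symR_r2 g P hg
  simp only [symR_r, add_e0, mul_e0]
  rw [h1, h2, hg.r0]
  ring

theorem top_s0 (hg : Low g) :
    HasTop2 (fun t => (g * expQ P.toQ t).s.e0) 0 P.v0 g.u.e0 := by
  refine hasTop2_one _ _ fun t => ?_
  obtain ⟨h1, -⟩ := symR_s1 g P hg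
  obtain ⟨h2, -, -⟩ := symR_s2 g P hg
  simp only [symR_s, add_e0, mul_e0]
  rw [h1, h2, hg.s0]
  ring

theorem top_r1 (hg : Low g) :
    HasTop2 (fun t => (g * expQ P.toQ t).r.e1) 1 (-((om g P - P.z) / 2 * P.v1))
      (-(g.v.e0 * P.z) - g.x.e1 * P.v1 + P.w1) := by
  refine hasTop2_two g.r.e1 _ _ fun t => ?_
  obtain ⟨h1, h1'⟩ := symR_r1 g P hg
  obtain ⟨h2, h2', -⟩ := symR_r2 g P hg
  simp only [symR_r, add_e1, mul_e1]
  rw [h1, h1', h2, h2']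
  ring

theorem top_s1 (hg : Low g) :
    HasTop2 (fun t => (g * expQ P.toQ t).s.e1) 1 ((om g P - P.z) / 2 * P.v0)
      (g.u.e0 * P.z + g.x.e1 * P.v0 - P.w0) := by
  refine hasTop2_two g.s.e1 _ _ fun t => ?_
  obtain ⟨h1, h1'⟩ := symR_s1 g P hg
  obtain ⟨h2, h2', -⟩ := symR_s2 g P hg
  simp only [symR_s, add_e1, mul_e1]
  rw [h1, h1', h2, h2']
  ring

theorem top_r2 (hg : Low g) :
    HasTop2 (fun t => (g * expQ P.toQ t).r.e2) 2 (-(P.T / 6 * P.v1))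
      ((-(c3v g P * P.v1) - (P.z ^ 2 + P.E / 2) * g.v.e0 + g.x.e1 * P.z * P.v1
        + (P.v0 * P.q3 - P.v1 * P.q1) - P.z * P.w1) / 2) := by
  obtain ⟨h1, h1'⟩ := symR_r1 g P hg
  obtain ⟨h2, h2', h2''⟩ := symR_r2 g P hg
  have e : (-(c3v g P * P.v1) - (P.z ^ 2 + P.E / 2) * g.v.e0 + g.x.e1 * P.z * P.v1
        + (P.v0 * P.q3 - P.v1 * P.q1) - P.z * P.w1) / 2 = (g * (P.toQ * P.toQ)).r.e2 / 2 := by
    rw [h2'']
    by_cases h : (2 : K) = 0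
    · rw [h, div_zero, div_zero]
    · unfold Par.E
      field_simp
  rw [e]
  refine hasTop2_three g.r.e2 ((g * P.toQ).r.e2) _ _ fun t => ?_
  simp only [symR_r, add_e2, mul_e2]
  rw [h1, h2]
  ring

theorem top_s2 (hg : Low g) :
    HasTop2 (fun t => (g * expQ P.toQ t).s.e2) 2 (P.T / 6 * P.v0)
      ((c3v g P * P.v0 + (P.z ^ 2 + P.E / 2) * g.u.e0 - g.x.e1 * P.z * P.v0
        + (-(P.v1 * P.q2) - P.v0 * P.q1) + P.z * P.w0) / 2) := by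
  obtain ⟨h1, h1'⟩ := symR_s1 g P hg
  obtain ⟨h2, h2', h2''⟩ := symR_s2 g P hg
  have e : (c3v g P * P.v0 + (P.z ^ 2 + P.E / 2) * g.u.e0 - g.x.e1 * P.z * P.v0
        + (-(P.v1 * P.q2) - P.v0 * P.q1) + P.z * P.w0) / 2 =
      (g * (P.toQ * P.toQ)).s.e2 / 2 := by
    rw [h2'']
    by_cases h : (2 : K) = 0
    · rw [h, div_zero, div_zero]
    · unfold Par.E
      field_simp
  rw [e]
  refine hasTop2_three g.s.e2 ((g * P.toQ).s.e2) _ _ fun t => ?_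
  simp only [symR_s, add_e2, mul_e2]
  rw [h1, h2]
  ring

theorem top_r3 (hg : Low g) :
    HasTop2 (fun t => (g * expQ P.toQ t).r.e3) 3
      (-((P.T * om g P + (P.D - P.z * P.T)) / 24 * P.v1))
      ((-((P.T * P.z + P.D) * g.v.e0) + P.T * (-(g.x.e1 * P.v1) + P.w1)) / 6) := by
  obtain ⟨h1, h1'⟩ := symR_r1 g P hg
  obtain ⟨h2, h2', -⟩ := symR_r2 g P hg
  refine hasTop2_four g.r.e3 ((g * P.toQ).r.e3) ((g * (P.toQ * P.toQ)).r.e3 / 2) _ _ fun t => ?_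
  simp only [symR_r, add_e3, mul_e3]
  rw [h1, h1', h2, h2', hg.r0]
  ring

theorem top_s3 (hg : Low g) :
    HasTop2 (fun t => (g * expQ P.toQ t).s.e3) 3
      ((P.T * om g P + (P.D - P.z * P.T)) / 24 * P.v0)
      (((P.T * P.z + P.D) * g.u.e0 + P.T * (g.x.e1 * P.v0 - P.w0)) / 6) := by
  obtain ⟨h1, h1'⟩ := symR_s1 g P hg
  obtain ⟨h2, h2', -⟩ := symR_s2 g P hg
  refine hasTop2_four g.s.e3 ((g * P.toQ).s.e3) ((g * (P.toQ * P.toQ)).s.e3 / 2) _ _ fun t => ?_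
  simp only [symR_s, add_e3, mul_e3]
  rw [h1, h1', h2, h2', hg.s0]
  ring

end rows

end Helper44.HU
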