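import Pool.Agent.Helper44.HU.FunDef
import Pool.Agent.Helper44.HU.SymR
import Pool.Agent.Helper44.HU.SymC

/-!
# HU-14: the symbol of `fB2`
-/

namespace Helper44.HU

open T4 Q

variable {K : Type} [Field K]

/-- Write `S = ` the stated value. `fB2` is a sum of four products; the two leading
coefficients of the factors are in `Sym.lean`; the sum of the leading coefficients (degree 5)
vanishes, then `HasTop2.drop`, and the coefficient at degree 4 is computed with the relations
`Low g` (for `2 * g.b.e1 = g.u.e0^2` etc. multiply by 2). `T, D, E, om` have to be unfolded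
(`E = 2 (v0 w1 - v1 w0)`, `D = ... + qq`), everything is then a polynomial identity. -/
theorem top_B2 (h2 : (2 : K) ≠ 0) (h3 : (3 : K) ≠ 0) (g : Q K) (P : Par K) (hg : Low g) :
    HasTop (fun t => fB2 (g * expQ P.toQ t)) 4
      ((-4 * P.T ^ 2 + 2 * P.T * symR g P - 5 * P.T * symP g P ^ 2
        - 3 * symR g P * symP g P ^ 2 + 6 * symR g P ^ 2 + 6 * symP g P * P.D) / 24) := by
  have H : HasTop2 (fun t => fB2 (g * expQ P.toQ t)) 4 _ _ :=
    ((((top_r1 g P hg).mul (top_u2 g P hg)).add ((top_s1 g P hg).mul (top_v2 g P hg))).add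
      ((top_r2 g P hg).mul (top_u1 g P hg))).add ((top_s2 g P hg).mul (top_v1 g P hg))
  have hb : g.b.e1 = g.u.e0 ^ 2 / 2 := by
    rw [← hg.b1]; field_simp
  have hc : g.c.e1 = -g.v.e0 ^ 2 / 2 := by
    rw [← hg.c1]; field_simp
  have h24 : (24 : K) ≠ 0 := by
    have : (24 : K) = 2 ^ 3 * 3 := by norm_num
    rw [this]
    exact mul_ne_zero (pow_ne_zero _ h2) h3
  have h6 : (6 : K) ≠ 0 := by
    have : (6 : K) = 2 * 3 := by norm_num
    rw [this]
    exact mul_ne_zero h2 h3
  obtain ⟨q, k1, k2, k2', k3⟩ := H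
  have hdrop : HasTop2 (fun t => fB2 (g * expQ P.toQ t)) 4 0
      ((-4 * P.T ^ 2 + 2 * P.T * symR g P - 5 * P.T * symP g P ^ 2
        - 3 * symR g P * symP g P ^ 2 + 6 * symR g P ^ 2 + 6 * symP g P * P.D) / 24) := by
    refine ⟨q, k1, k2.trans ?_, k2'.trans ?_, k3⟩
    · ring
    · simp only [symR, symP, Av0, Av1, c3v, om, Par.T, Par.D, Par.E, Par.qq]
      rw [hb, hc, hg.x1, hg.a1]
      field_simp
      ring
  exact hdrop.drop

end Helper44.HU
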