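import Pool.Agent.Helper44.HU.FunDef
import Pool.Agent.Helper44.HU.SymR
import Pool.Agent.Helper44.HU.SymC

/-!
# HU-15: the symbol of `fB3`
-/

namespace Helper44.HU

open T4 Q

variable {K : Type} [Field K]

/-- Write `S = ` the stated value. `fB3` is a sum of four products; the two leading
coefficients of the factors are in `Sym.lean`; the sum of the leading coefficients (degree 7)
vanishes, then `HasTop2.drop`, and the coefficient at degree 6 is computed with the relations
`Low g` (for `2 * g.b.e1 = g.u.e0^2` etc. multiply by 2). `T, D, E, om` have to be unfolded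
(`E = 2 (v0 w1 - v1 w0)`, `D = ... + qq`), everything is then a polynomial identity. -/
theorem top_B3 (h2 : (2 : K) ≠ 0) (h3 : (3 : K) ≠ 0) (g : Q K) (P : Par K) (hg : Low g) :
    HasTop (fun t => fB3 (g * expQ P.toQ t)) 6
      ((3 * (4 * P.D ^ 2 - symP g P * symR g P * P.D
          + P.T * (2 * symP g P * P.D - P.T * symP g P ^ 2 - symR g P * symP g P ^ 2
            - 4 * P.T ^ 2 + 2 * P.T * symR g P + 2 * symR g P ^ 2))
        + 4 * P.T ^ 2 * (4 * P.T - 2 * symR g P - symP g P ^ 2)) / 288) := by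
  have h := ((((top_r2 g P hg).mul (top_u3 g P hg)).add ((top_s2 g P hg).mul (top_v3 g P hg))).add
    (((top_r3 g P hg).mul (top_u2 g P hg)).add ((top_s3 g P hg).mul (top_v2 g P hg))))
  have e1 : (-(P.T / 6 * P.v1) * ((P.D - P.z * P.T) / 24 * P.v0) +
        P.T / 6 * P.v0 * ((P.D - P.z * P.T) / 24 * P.v1) +
      (-((P.T * om g P + (P.D - P.z * P.T)) / 24 * P.v1) * (P.T / 6 * P.v0) +
        (P.T * om g P + (P.D - P.z * P.T)) / 24 * P.v0 * (P.T / 6 * P.v1)) : K) = 0 := by ring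
  rw [e1] at h
  have h' := h.drop
  have hb1 : g.b.e1 = g.u.e0 ^ 2 / 2 := by
    rw [eq_div_iff h2, mul_comm]; exact hg.b1
  have hc1 : g.c.e1 = -g.v.e0 ^ 2 / 2 := by
    rw [eq_div_iff h2, mul_comm]; exact hg.c1
  have ha1 : g.a.e1 = g.d.e1 - g.u.e0 * g.v.e0 := hg.a1
  have hx1 : g.x.e1 = -g.a.e1 - g.d.e1 := hg.x1
  have h6 : (6 : K) ≠ 0 := by
    have : (6 : K) = 2 * 3 := by norm_num
    rw [this]; exact mul_ne_zero h2 h3
  have h24 : (24 : K) ≠ 0 := by
    have : (24 : K) = 2 * 2 * 2 * 3 := by norm_num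
    rw [this]; exact mul_ne_zero (mul_ne_zero (mul_ne_zero h2 h2) h2) h3
  have h288 : (288 : K) ≠ 0 := by
    have : (288 : K) = 24 * 6 * 2 := by norm_num
    rw [this]; exact mul_ne_zero (mul_ne_zero h24 h6) h2
  have h12 : (12 : K) ≠ 0 := by
    have : (12 : K) = 6 * 2 := by norm_num
    rw [this]; exact mul_ne_zero h6 h2
  have h144 : (144 : K) ≠ 0 := by
    have : (144 : K) = 24 * 6 := by norm_num
    rw [this]; exact mul_ne_zero h24 h6
  obtain ⟨q, k1, k2, k3⟩ := h'
  refine ⟨q, k1, ?_, fun t => by rw [← k3 t]; unfold fB3; ring⟩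
  rw [eq_div_iff h288]
  rw [k2]
  simp only [Av0, Av1, symP, symR]
  rw [hx1, ha1, hb1, hc1]
  simp only [c3v, om, Par.T, Par.D, Par.E, Par.qq]
  field_simp
  ring

end Helper44.HU
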