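import Pool.Agent.Helper44.HU.SymDef

/-!
# HU-12: leading coefficients of the corner and of the trace (see the header of SymDef.lean)
-/

namespace Helper44.HU

open T4 Q

variable {K : Type} [Field K]

section corner

variable (g : Q K) (P : Par K)

theorem top_x1 (hg : Low g) :
    HasTop (fun t => (g * expQ P.toQ t).x.e1) 1 (symP g P) := by
  refine hasTop_one (g.x.e1) _ fun t => ?_
  rw [P.exp_eq]
  simp [Par.toQ, symP, om, hg.x0, hg.r0, hg.s0]
  ring

theorem top_x2 (hg : Low g) :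
    HasTop (fun t => (g * expQ P.toQ t).x.e2) 2 (symR g P / 2) := by
  refine hasTop_two (g.x.e2) ((g * P.toQ).x.e2) _ fun t => ?_
  rw [P.exp_eq]
  simp [Par.toQ, symR, om, Par.E, hg.x0, hg.r0, hg.s0]
  ring

theorem top_x3 (hg : Low g) :
    HasTop (fun t => (g * expQ P.toQ t).x.e3) 3 ((P.D + P.T * symP g P) / 6) := by
  refine hasTop_three (g.x.e3) ((g * P.toQ).x.e3) ((g * (P.toQ * P.toQ)).x.e3 / 2) _ fun t => ?_
  rw [P.exp_eq]
  simp [Par.toQ, symP, om, hg.x0, hg.r0, hg.s0]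
  ring

/-- the trace at `τ^3` -/
theorem top_tr (h3 : (3 : K) ≠ 0) (hg : Low g) :
    HasTop (fun t => (tr (g * expQ P.toQ t)).e3) 3 (P.D / 2) := by
  have e : P.D / 2 = 3 * P.D / 6 := by
    have : (6 : K) = 3 * 2 := by norm_num
    rw [this, mul_div_mul_left _ _ h3]
  rw [e]
  refine hasTop_three ((tr g).e3) ((tr (g * P.toQ)).e3) ((tr (g * (P.toQ * P.toQ))).e3 / 2) _
    fun t => ?_
  rw [P.exp_eq]
  simp [Par.toQ, tr, hg.a0, hg.b0, hg.c0, hg.d0, hg.x0, hg.r0, hg.s0, hg.x1]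
  ring

end corner

end Helper44.HU
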