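import Pool.Agent.Helper44.HU.FunB1
import Pool.Agent.Helper44.HU.FunB2
import Pool.Agent.Helper44.HU.FunB3
import Pool.Agent.Helper44.HU.SymX

/-!
# HU-16: the symbols of `f4` and `f6`
-/

namespace Helper44.HU

open T4 Q

variable {K : Type} [Field K]

/-- `ω^2 = P^2 - 4 R + 4 T` -/
theorem om_sq (g : Q K) (P : Par K) :
    om g P ^ 2 = symP g P ^ 2 - 4 * symR g P + 4 * P.T := by
  unfold symP symR Par.T
  ring

private theorem cast_top {f f' : K → K} {n : ℕ} {c c' : K} (h : HasTop f n c)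
    (hf : ∀ t, f' t = f t) (hc : c = c') : HasTop f' n c' := by
  obtain ⟨q, h1, h2, h3⟩ := h
  exact ⟨q, h1, h2.trans hc, fun t => (hf t).trans (h3 t)⟩

private theorem six_ne (h2 : (2 : K) ≠ 0) (h3 : (3 : K) ≠ 0) : (6 : K) ≠ 0 := by
  have : (6 : K) = 2 * 3 := by norm_num
  rw [this]; exact mul_ne_zero h2 h3

private theorem tf_ne (h2 : (2 : K) ≠ 0) (h3 : (3 : K) ≠ 0) : (24 : K) ≠ 0 := by
  have : (24 : K) = 2 * 2 * 2 * 3 := by norm_num
  rw [this]; exact mul_ne_zero (mul_ne_zero (mul_ne_zero h2 h2) h2) h3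

private theorem te_ne (h2 : (2 : K) ≠ 0) (h3 : (3 : K) ≠ 0) : (288 : K) ≠ 0 := by
  have : (288 : K) = 24 * 6 * 2 := by norm_num
  rw [this]; exact mul_ne_zero (mul_ne_zero (tf_ne h2 h3) (six_ne h2 h3)) h2

theorem top_a (g : Q K) (P : Par K) (hg : Low g) :
    HasTop (fun t => fa (g * expQ P.toQ t)) 1 (symP g P) := top_x1 g P hg

theorem top_b (h2 : (2 : K) ≠ 0) (g : Q K) (P : Par K) (hg : Low g) :
    HasTop (fun t => fb (g * expQ P.toQ t)) 2 (symR g P) :=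
  cast_top ((top_x2 g P hg).const_mul 2) (fun _ => rfl) (mul_div_cancel₀ _ h2)

theorem top_D (h2 : (2 : K) ≠ 0) (h3 : (3 : K) ≠ 0) (g : Q K) (P : Par K) (hg : Low g) :
    HasTop (fun t => fD (g * expQ P.toQ t)) 3 P.D :=
  cast_top ((top_tr g P h3 hg).const_mul 2) (fun _ => rfl) (mul_div_cancel₀ _ h2)

theorem top_TP (h2 : (2 : K) ≠ 0) (h3 : (3 : K) ≠ 0) (g : Q K) (P : Par K) (hg : Low g) :
    HasTop (fun t => fTP (g * expQ P.toQ t)) 3 (P.T * symP g P) := by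
  refine cast_top (((top_x3 g P hg).const_mul 6).sub ((top_tr g P h3 hg).const_mul 2))
    (fun _ => rfl) ?_
  rw [mul_div_cancel₀ _ (six_ne h2 h3), mul_div_cancel₀ _ h2]
  ring

theorem top_G2 (h2 : (2 : K) ≠ 0) (h3 : (3 : K) ≠ 0) (g : Q K) (P : Par K) (hg : Low g) :
    HasTop (fun t => fG2 (g * expQ P.toQ t)) 4 (4 * P.T ^ 2) := by
  refine cast_top (((top_B1 h2 h3 g P hg).const_mul 24).add
    (((top_a g P hg).mul (top_TP h2 h3 g P hg)).const_mul 3)) (fun _ => rfl) ?_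
  rw [mul_div_cancel₀ _ (tf_ne h2 h3)]
  ring

theorem top_GR (h2 : (2 : K) ≠ 0) (h3 : (3 : K) ≠ 0) (g : Q K) (P : Par K) (hg : Low g) :
    HasTop (fun t => fGR (g * expQ P.toQ t)) 4 (2 * (P.T * symR g P)) := by
  have ha := top_a g P hg
  have hb := top_b h2 g P hg
  have hD := top_D h2 h3 g P hg
  have hTP := top_TP h2 h3 g P hg
  have e1 := ((top_B2 h2 h3 g P hg).const_mul 24).add (top_G2 h2 h3 g P hg)
  have e2 : HasTop _ 4 _ := (ha.mul hTP).const_mul 5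
  have e3 : HasTop _ 4 _ := ((ha.mul ha).mul hb).const_mul 3
  have e4 : HasTop _ 4 _ := (hb.mul hb).const_mul 6
  have e5 : HasTop _ 4 _ := (ha.mul hD).const_mul 6
  refine cast_top ((((e1.add e2).add e3).sub e4).sub e5) (fun _ => rfl) ?_
  rw [mul_div_cancel₀ _ (tf_ne h2 h3)]
  ring

theorem top_dsc (h2 : (2 : K) ≠ 0) (g : Q K) (P : Par K) (hg : Low g) :
    HasTop (fun t => fdsc (g * expQ P.toQ t)) 2 (symP g P ^ 2 - 4 * symR g P) := by
  have ha := top_a g P hg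
  have e1 : HasTop _ 2 _ := ha.mul ha
  refine cast_top (e1.sub ((top_b h2 g P hg).const_mul 4)) (fun _ => rfl) ?_
  ring

theorem top_G3 (h2 : (2 : K) ≠ 0) (h3 : (3 : K) ≠ 0) (g : Q K) (P : Par K) (hg : Low g) :
    HasTop (fun t => fG3 (g * expQ P.toQ t)) 6 (64 * P.T ^ 3) := by
  have ha := top_a g P hg
  have hb := top_b h2 g P hg
  have hD := top_D h2 h3 g P hg
  have hTP := top_TP h2 h3 g P hg
  have hG2 := top_G2 h2 h3 g P hg
  have hGR := top_GR h2 h3 g P hg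
  have e1 := (top_B3 h2 h3 g P hg).const_mul 4608
  have e2 : HasTop _ 6 _ := (hD.mul hD).const_mul 192
  have e3 : HasTop _ 6 _ := ((ha.mul hb).mul hD).const_mul 48
  have e4 : HasTop _ 6 _ := (hTP.mul hD).const_mul 96
  have e5 : HasTop _ 6 _ := (hTP.mul hTP).const_mul 112
  have e6 : HasTop _ 6 _ := ((ha.mul hb).mul hTP).const_mul 48
  have e7 : HasTop _ 6 _ := (hG2.mul hb).const_mul 8
  have e8 : HasTop _ 6 _ := (hGR.mul hb).const_mul 48
  refine cast_top (((((((e1.sub e2).add e3).sub e4).add e5).add e6).add e7).sub e8)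
    (fun _ => rfl) ?_
  have h288 : ∀ y : K, 4608 * (y / 288) = 16 * y := by
    intro y
    have h := te_ne h2 h3
    field_simp
    ring
  rw [h288]
  ring

theorem top_f4 (h2 : (2 : K) ≠ 0) (h3 : (3 : K) ≠ 0) (g : Q K) (P : Par K) (hg : Low g) :
    HasTop (fun t => f4 (g * expQ P.toQ t)) 4 (om g P ^ 4) := by
  have ha := top_a g P hg
  have hTP := top_TP h2 h3 g P hg
  have hG2 := top_G2 h2 h3 g P hg
  have hGR := top_GR h2 h3 g P hg
  have hd := top_dsc h2 g P hg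
  have e1 : HasTop _ 4 _ := hd.mul hd
  have e2 : HasTop _ 4 _ := (ha.mul hTP).const_mul 8
  refine cast_top (((e1.add e2).sub (hGR.const_mul 16)).add (hG2.const_mul 4))
    (fun _ => rfl) ?_
  have h4 : om g P ^ 4 = (om g P ^ 2) ^ 2 := by ring
  rw [h4, om_sq]
  ring

theorem top_f6 (h2 : (2 : K) ≠ 0) (h3 : (3 : K) ≠ 0) (g : Q K) (P : Par K) (hg : Low g) :
    HasTop (fun t => f6 (g * expQ P.toQ t)) 6 (om g P ^ 6) := by
  have ha := top_a g P hg
  have hTP := top_TP h2 h3 g P hg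
  have hG2 := top_G2 h2 h3 g P hg
  have hGR := top_GR h2 h3 g P hg
  have hG3 := top_G3 h2 h3 g P hg
  have hd := top_dsc h2 g P hg
  have e1 : HasTop _ 6 _ := (hd.mul hd).mul hd
  have e2 : HasTop _ 6 _ := (hd.mul (ha.mul hTP)).const_mul 12
  have e3 : HasTop _ 6 _ := (hd.mul hGR).const_mul 24
  have e4 : HasTop _ 6 _ := (hG2.mul hd).const_mul 12
  refine cast_top ((((e1.add e2).sub e3).add e4).add hG3) (fun _ => rfl) ?_
  have h6 : om g P ^ 6 = (om g P ^ 2) ^ 3 := by ring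
  rw [h6, om_sq]
  ring

end Helper44.HU
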