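import Pool.Agent.Helper44.HU.FunDef
import Pool.Agent.Helper44.HU.SymR
import Pool.Agent.Helper44.HU.SymC

/-!
# HU-13: the symbol of `fB1`
-/

namespace Helper44.HU

open T4 Q

variable {K : Type} [Field K]

/-- Write `S = ` the stated value. `fB1` is a sum of four products; the two leading
coefficients of the factors are in `Sym.lean`; the sum of the leading coefficients (degree 5)
vanishes, then `HasTop2.drop`, and the coefficient at degree 4 is computed with the relations
`Low g` (for `2 * g.b.e1 = g.u.e0^2` etc. multiply by 2). `T, D, E, om` have to be unfolded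
(`E = 2 (v0 w1 - v1 w0)`, `D = ... + qq`), everything is then a polynomial identity. -/
theorem top_B1 (h2 : (2 : K) ≠ 0) (h3 : (3 : K) ≠ 0) (g : Q K) (P : Par K) (hg : Low g) :
    HasTop (fun t => fB1 (g * expQ P.toQ t)) 4
      ((4 * P.T ^ 2 - 3 * P.T * symP g P ^ 2) / 24) := by
  have h6 : (6 : K) ≠ 0 := by
    have : (6 : K) = 2 * 3 := by norm_num
    rw [this]; exact mul_ne_zero h2 h3
  have h24 : (24 : K) ≠ 0 := by
    have : (24 : K) = 2 * 2 * (2 * 3) := by norm_num
    rw [this]; exact mul_ne_zero (mul_ne_zero h2 h2) (mul_ne_zero h2 h3)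
  have key := ((((top_r0 g P hg).mul (top_u3 g P hg)).add
    ((top_s0 g P hg).mul (top_v3 g P hg))).add
    ((top_r3 g P hg).mul (top_u0 g P hg))).add ((top_s3 g P hg).mul (top_v0 g P hg))
  have h0 : -P.v1 * ((P.D - P.z * P.T) / 24 * P.v0) + P.v0 * ((P.D - P.z * P.T) / 24 * P.v1) +
      -((P.T * om g P + (P.D - P.z * P.T)) / 24 * P.v1) * P.v0 +
      (P.T * om g P + (P.D - P.z * P.T)) / 24 * P.v0 * P.v1 = 0 := by ring
  rw [h0] at key
  have key2 := key.drop
  refine (congrArg (HasTop (fun t => fB1 (g * expQ P.toQ t)) 4) ?_).mp key2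
  have e1 := hg.b1
  have e2 := hg.c1
  have e3 := hg.a1
  have hT : P.T = 2 * (P.v0 * P.w1 - P.v1 * P.w0) + 3 * P.z ^ 2 := rfl
  unfold symP
  generalize P.D = D at *
  generalize P.T = T at *
  unfold Av0 Av1 om
  rw [e3]
  field_simp
  linear_combination (-12 * T * P.v1 ^ 2) * e1 + (12 * T * P.v0 ^ 2) * e2 - (24 * T) * hT

end Helper44.HU
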