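import Pool.Agent.Helper44.HU.SymDef

/-!
# The functions `f4` and `f6`: definitions
-/

namespace Helper44.HU

open T4 Q

section defs

variable {K : Type} [CommRing K]

/-- `c_1 b_7 + c_7 b_1` -/
def fB1 (g : Q K) : K :=
  g.r.e0 * g.u.e3 + g.s.e0 * g.v.e3 + g.r.e3 * g.u.e0 + g.s.e3 * g.v.e0

/-- `c_3 b_5 + c_5 b_3` -/
def fB2 (g : Q K) : K :=
  g.r.e1 * g.u.e2 + g.s.e1 * g.v.e2 + g.r.e2 * g.u.e1 + g.s.e2 * g.v.e1

/-- `c_5 b_7 + c_7 b_5` -/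
def fB3 (g : Q K) : K :=
  g.r.e2 * g.u.e3 + g.s.e2 * g.v.e3 + g.r.e3 * g.u.e2 + g.s.e3 * g.v.e2

/-- symbol `P` -/
def fa (g : Q K) : K := g.x.e1

/-- symbol `R` -/
def fb (g : Q K) : K := 2 * g.x.e2

/-- symbol `D` -/
def fD (g : Q K) : K := 2 * (tr g).e3

/-- symbol `T P` -/
def fTP (g : Q K) : K := 6 * g.x.e3 - 2 * (tr g).e3

/-- symbol `4 T^2` -/
def fG2 (g : Q K) : K := 24 * fB1 g + 3 * (fa g * fTP g)

/-- symbol `2 T R` -/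
def fGR (g : Q K) : K :=
  24 * fB2 g + fG2 g + 5 * (fa g * fTP g) + 3 * (fa g * fa g * fb g) - 6 * (fb g * fb g)
    - 6 * (fa g * fD g)

/-- symbol `P^2 - 4 R` -/
def fdsc (g : Q K) : K := fa g * fa g - 4 * fb g

/-- symbol `ω^4` -/
def f4 (g : Q K) : K :=
  fdsc g * fdsc g + 8 * (fa g * fTP g) - 16 * fGR g + 4 * fG2 g

/-- symbol `64 T^3` -/
def fG3 (g : Q K) : K :=
  4608 * fB3 g - 192 * (fD g * fD g) + 48 * (fa g * fb g * fD g) - 96 * (fTP g * fD g)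
    + 112 * (fTP g * fTP g) + 48 * (fa g * fb g * fTP g) + 8 * (fG2 g * fb g)
    - 48 * (fGR g * fb g)

/-- symbol `ω^6` -/
def f6 (g : Q K) : K :=
  fdsc g * fdsc g * fdsc g + 12 * (fdsc g * (fa g * fTP g)) - 24 * (fdsc g * fGR g)
    + 12 * (fG2 g * fdsc g) + fG3 g

end defs

end Helper44.HU
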