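import Pool.Agent.Helper44.HU.Alg

/-!
# HU-2: the group `Gam K`
-/

namespace Helper44.HU

open T4 Q

variable {K : Type} [CommRing K]

/-- The conditions which define the group: leading part `1`, unimodular and unitary. -/
structure IsGam (g : Q K) : Prop where
  a0 : g.a.e0 = 1
  b0 : g.b.e0 = 0
  c0 : g.c.e0 = 0
  d0 : g.d.e0 = 1
  x0 : g.x.e0 = 1
  hadj : g.adj = g.iota
  hdet : g.det = 1

/-- the group -/
def Gam (K : Type) [CommRing K] : Type := {g : Q K // IsGam g}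

theorem isGam_one : IsGam (1 : Q K) where
  a0 := rfl
  b0 := rfl
  c0 := rfl
  d0 := rfl
  x0 := rfl
  hadj := by rw [adj_one, iota_one]
  hdet := det_one

theorem IsGam.mul {g h : Q K} (hg : IsGam g) (hh : IsGam h) : IsGam (g * h) where
  a0 := by simp [hg.a0, hg.b0, hh.a0, hh.c0]
  b0 := by simp [hg.a0, hg.b0, hh.b0, hh.d0]
  c0 := by simp [hg.c0, hg.d0, hh.a0, hh.c0]
  d0 := by simp [hg.c0, hg.d0, hh.b0, hh.d0]
  x0 := by simp [hg.x0, hh.x0]
  hadj := by rw [adj_mul, iota_mul, hg.hadj, hh.hadj]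
  hdet := by rw [det_mul, hg.hdet, hh.hdet, mul_one]

/-- from `iota_iota`, `adj_iota`, `adj_adj`, `det_iota` -/
theorem IsGam.iota {g : Q K} (hg : IsGam g) : IsGam g.iota where
  a0 := by simp [Q.iota, hg.d0]
  b0 := by simp [Q.iota, hg.b0]
  c0 := by simp [Q.iota, hg.c0]
  d0 := by simp [Q.iota, hg.a0]
  x0 := by simp [Q.iota, hg.x0]
  hadj := by
    rw [adj_iota, hg.hadj]
  hdet := by rw [det_iota, hg.hdet, bar_one]

theorem IsGam.iota_mul_self {g : Q K} (hg : IsGam g) : g.iota * g = 1 := by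
  rw [← hg.hadj, adj_mul_self, hg.hdet, one_smul]

theorem IsGam.mul_iota {g : Q K} (hg : IsGam g) : g * g.iota = 1 := by
  rw [← hg.hadj, mul_adj, hg.hdet, one_smul]

instance : Group (Gam K) where
  mul g h := ⟨g.1 * h.1, g.2.mul h.2⟩
  one := ⟨1, isGam_one⟩
  inv g := ⟨g.1.iota, g.2.iota⟩
  mul_assoc g h k := Subtype.ext (mul_assoc g.1 h.1 k.1)
  one_mul g := Subtype.ext (one_mul g.1)
  mul_one g := Subtype.ext (mul_one g.1)
  inv_mul_cancel g := Subtype.ext g.2.iota_mul_self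

@[simp] theorem Gam.coe_mul (g h : Gam K) : (g * h).1 = g.1 * h.1 := rfl

@[simp] theorem Gam.coe_one : (1 : Gam K).1 = 1 := rfl

@[simp] theorem Gam.coe_pow (g : Gam K) (n : ℕ) : (g ^ n).1 = g.1 ^ n := by
  induction n with
  | zero => rw [pow_zero, pow_zero, Gam.coe_one]
  | succ n ih => rw [pow_succ, pow_succ, Gam.coe_mul, ih]

instance [Finite K] : Finite (Gam K) := by
  have h1 : Finite (T4 K) := by
    refine Finite.of_injective (β := K × K × K × K) (fun a => (a.e0, a.e1, a.e2, a.e3)) ?_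
    intro a b hab
    simp only [Prod.mk.injEq] at hab
    exact T4.ext hab.1 hab.2.1 hab.2.2.1 hab.2.2.2
  have h2 : Finite (Q K) := by
    refine Finite.of_injective
      (β := T4 K × T4 K × T4 K × T4 K × T4 K × T4 K × T4 K × T4 K × T4 K)
      (fun g => (g.a, g.b, g.c, g.d, g.u, g.v, g.r, g.s, g.x)) ?_
    intro a b hab
    simp only [Prod.mk.injEq] at hab
    obtain ⟨h1, h2, h3, h4, h5, h6, h7, h8, h9⟩ := hab
    exact Q.ext h1 h2 h3 h4 h5 h6 h7 h8 h9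
  exact Subtype.finite

/-- The relations at low order: compare coefficients in `adj g = iota g`. -/
structure Low (g : Q K) : Prop where
  a0 : g.a.e0 = 1
  b0 : g.b.e0 = 0
  c0 : g.c.e0 = 0
  d0 : g.d.e0 = 1
  x0 : g.x.e0 = 1
  r0 : g.r.e0 = -g.v.e0
  s0 : g.s.e0 = g.u.e0
  b1 : 2 * g.b.e1 = g.u.e0 ^ 2
  c1 : 2 * g.c.e1 = -g.v.e0 ^ 2
  a1 : g.a.e1 = g.d.e1 - g.u.e0 * g.v.e0
  x1 : g.x.e1 = -g.a.e1 - g.d.e1

/-- `u`: `adj.u.e0 = -u0`, `iota.u.e0 = -s0`; `v`: `adj.v.e0 = -v0`, `iota.v.e0 = r0`;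
`b`: `adj.b.e1 = u0 s0 - b1`, `iota.b.e1 = b1`; `c`: `adj.c.e1 = v0 r0 - c1`,
`iota.c.e1 = c1`; `a`: `adj.a.e1 = d1 + x1 - v0 s0`, `iota.a.e1 = -d1`;
`d`: `adj.d.e1 = a1 + x1 - u0 r0`, `iota.d.e1 = -a1`; `x`: from `a`, `d` (divide by two). -/
theorem IsGam.low (h2 : ∀ x y : K, 2 * x = 2 * y → x = y) {g : Q K} (hg : IsGam g) :
    Low g := by
  have hu := congrArg (fun q : Q K => q.u.e0) hg.hadj
  have hv := congrArg (fun q : Q K => q.v.e0) hg.hadj
  have hb := congrArg (fun q : Q K => q.b.e1) hg.hadj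
  have hc := congrArg (fun q : Q K => q.c.e1) hg.hadj
  have ha := congrArg (fun q : Q K => q.a.e1) hg.hadj
  have hd := congrArg (fun q : Q K => q.d.e1) hg.hadj
  simp only [Q.adj, Q.iota, sub_e0, sub_e1, mul_e0, mul_e1, neg_e0, neg_e1, bar_e0, bar_e1,
    tau_e0, tau_e1, hg.a0, hg.b0, hg.c0, hg.d0, hg.x0] at hu hv hb hc ha hd
  have hs : g.s.e0 = g.u.e0 := by linear_combination hu
  have hr : g.r.e0 = -g.v.e0 := by linear_combination -hv
  have hda : g.a.e1 = g.d.e1 - g.u.e0 * g.v.e0 := by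
    have h3 : (2 : K) * g.a.e1 = 2 * (g.d.e1 - g.u.e0 * g.v.e0) := by
      rw [hs] at ha
      rw [hr] at hd
      linear_combination hd - ha
    exact h2 _ _ h3
  refine ⟨hg.a0, hg.b0, hg.c0, hg.d0, hg.x0, hr, hs, ?_, ?_, hda, ?_⟩
  · rw [hs] at hb
    linear_combination -hb
  · rw [hr] at hc
    linear_combination -hc
  · rw [hs] at ha
    linear_combination ha + hda

/-- the two homomorphisms to `K` are the two entries of the column `(u, v)` at `τ^0` -/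
theorem s_mul (g h : Gam K) : (g * h).1.u.e0 = g.1.u.e0 + h.1.u.e0 := by
  simp [g.2.a0, g.2.b0, h.2.x0]
  ring

theorem t_mul (g h : Gam K) : (g * h).1.v.e0 = g.1.v.e0 + h.1.v.e0 := by
  simp [g.2.c0, g.2.d0, h.2.x0]
  ring

/-- Witness (`i` is one half): `1 + U + U^2/2` with `U = (0, v, v^flat, 0)`, `v = (p, q)`, i.e.
`a = 1 - i p q τ`, `b = i p^2 τ`, `c = - i q^2 τ`, `d = 1 + i p q τ`, `u = p`, `v = q`, `r = -q`,
`s = p`, `x = 1`. -/
theorem exists_st {i : K} (hi : 2 * i = 1) (p q : K) :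
    ∃ g : Gam K, g.1.u.e0 = p ∧ g.1.v.e0 = q := by
  refine ⟨⟨⟨⟨1, -(i * p * q), 0, 0⟩, ⟨0, i * p ^ 2, 0, 0⟩, ⟨0, -(i * q ^ 2), 0, 0⟩,
    ⟨1, i * p * q, 0, 0⟩, ⟨p, 0, 0, 0⟩, ⟨q, 0, 0, 0⟩, ⟨-q, 0, 0, 0⟩, ⟨p, 0, 0, 0⟩, 1⟩,
    ⟨rfl, rfl, rfl, rfl, rfl, ?_, ?_⟩⟩, rfl, rfl⟩
  · ext1 <;> ext1 <;> simp [Q.adj, Q.iota] <;>
      first
      | ring1
      | linear_combination (-p ^ 2) * hi
      | linear_combination (q ^ 2) * hi
      | linear_combination (-(p * q)) * hi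
      | linear_combination (p * q) * hi
  · ext1 <;> simp [Q.det] <;> ring

end Helper44.HU
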