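import Pool.Agent.Helper44.HU.LieDef

/-!
# HU-3: the Lie algebra
-/

set_option linter.unusedSimpArgs false
set_option linter.unreachableTactic false
set_option linter.unusedTactic false

namespace Helper44.HU

open T4 Q

variable {K : Type} [CommRing K]

theorem Par.tr_toQ (P : Par K) : tr P.toQ = 0 := by
  ext <;> simp [tr, Par.toQ] <;> ring

theorem Par.sig_toQ (P : Par K) : sig P.toQ = ⟨0, 0, -P.T, 0⟩ := by
  ext <;> simp [sig, adj, tr, Par.toQ, Par.T, Par.E] <;> ring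

theorem Par.det_toQ (P : Par K) : det P.toQ = ⟨0, 0, 0, P.D⟩ := by
  ext <;> simp [det, Par.toQ, Par.D, Par.qq, Par.E] <;> ring

/-- from `cayley` -/
theorem Par.cube (P : Par K) :
    P.toQ * P.toQ * P.toQ = (⟨0, 0, P.T, 0⟩ : T4 K) • P.toQ + (⟨0, 0, 0, P.D⟩ : T4 K) • (1 : Q K) := by
  rw [cayley, P.tr_toQ, P.sig_toQ, P.det_toQ, zero_smul]
  have h : (⟨0, 0, -P.T, 0⟩ : T4 K) = -⟨0, 0, P.T, 0⟩ := by
    ext <;> simp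
  rw [h, neg_smul, zero_sub, neg_neg]

/-- the low coefficients of the square: the entries `a, b, c, d` vanish at `τ^0`, all other
entries vanish at `τ^0`, and `u, v, r, s` at `τ^1` are `-z v`, `-z v^flat`, `x` vanishes
at `τ^1` and is `E + 4 z^2` at `τ^2`, ... -/
theorem Par.sq_low (P : Par K) :
    (P.toQ * P.toQ).a = ⟨0, -(P.v0 * P.v1), P.z ^ 2 + P.v0 * P.w1 - P.v1 * P.w0,
        (P.toQ * P.toQ).a.e3⟩ ∧
    (P.toQ * P.toQ).b = ⟨0, P.v0 ^ 2, 0, (P.toQ * P.toQ).b.e3⟩ ∧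
    (P.toQ * P.toQ).c = ⟨0, -P.v1 ^ 2, 0, (P.toQ * P.toQ).c.e3⟩ ∧
    (P.toQ * P.toQ).d = ⟨0, P.v0 * P.v1, P.z ^ 2 + P.v0 * P.w1 - P.v1 * P.w0,
        (P.toQ * P.toQ).d.e3⟩ ∧
    (P.toQ * P.toQ).u = ⟨0, -(P.z * P.v0), P.q1 * P.v0 + P.q2 * P.v1 - P.z * P.w0,
        (P.toQ * P.toQ).u.e3⟩ ∧
    (P.toQ * P.toQ).v = ⟨0, -(P.z * P.v1), P.q3 * P.v0 - P.q1 * P.v1 - P.z * P.w1,
        (P.toQ * P.toQ).v.e3⟩ ∧
    (P.toQ * P.toQ).r = ⟨0, P.z * P.v1, -(P.v1 * P.q1) + P.v0 * P.q3 - P.z * P.w1,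
        (P.toQ * P.toQ).r.e3⟩ ∧
    (P.toQ * P.toQ).s = ⟨0, -(P.z * P.v0), -(P.v1 * P.q2) - P.v0 * P.q1 + P.z * P.w0,
        (P.toQ * P.toQ).s.e3⟩ ∧
    (P.toQ * P.toQ).x = ⟨0, 0, P.E + 4 * P.z ^ 2, (P.toQ * P.toQ).x.e3⟩ := by
  refine ⟨?_, ?_, ?_, ?_, ?_, ?_, ?_, ?_, ?_⟩ <;> ext <;> simp [Par.toQ, Par.E] <;> ring

end Helper44.HU
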