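import Pool.Agent.Helper44.HU.LieDef

/-!
# HU-4: the truncated exponential
-/

namespace Helper44.HU

open T4 Q

variable {K : Type} [Field K]

/-- the truncated exponential in terms of powers -/
theorem expQ_pows (U : Q K) (t : K) : expQ U t =
    (1 : T4 K) • (1 : Q K) + C t • U ^ 1 + C (t ^ 2 / 2) • U ^ 2 + C (t ^ 3 / 6) • U ^ 3 +
      C (t ^ 4 / 24) • U ^ 4 := by
  have h2 : U * U = U ^ 2 := (pow_two U).symm
  have h3 : U ^ 2 * U = U ^ 3 := (pow_succ U 2).symm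
  have h4 : U ^ 3 * U = U ^ 4 := (pow_succ U 3).symm
  unfold expQ
  rw [h2, h3, h4, one_smul, pow_one]

theorem expQ_smul_mul (U : Q K) (a b : T4 K) (i j : ℕ) :
    (a • U ^ i) * (b • U ^ j) = (a * b) • U ^ (i + j) := by
  rw [smul_mul_smul_comm, pow_add]

/-- If `U^5 = 0` then `t ↦ exp(t U)` is a homomorphism. -/
theorem expQ_add (h2 : (2 : K) ≠ 0) (h3 : (3 : K) ≠ 0) {U : Q K} (hU : U * U * U * U * U = 0)
    (s t : K) : expQ U (s + t) = expQ U s * expQ U t := by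
  have hU5 : U ^ 5 = 0 := by
    rw [← hU]
    simp only [pow_succ, pow_zero, one_mul]
  have hz : ∀ n, U ^ (n + 5) = 0 := fun n => by rw [pow_add, hU5, mul_zero]
  have h6 : (6 : K) ≠ 0 := by
    have : (6 : K) = 2 * 3 := by norm_num
    rw [this]
    exact mul_ne_zero h2 h3
  have h24 : (24 : K) ≠ 0 := by
    have : (24 : K) = 2 * 2 * 2 * 3 := by norm_num
    rw [this]
    exact mul_ne_zero (mul_ne_zero (mul_ne_zero h2 h2) h2) h3
  have h0 : (1 : T4 K) • (1 : Q K) = (1 : T4 K) • U ^ 0 := by rw [pow_zero]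
  have e1 : C (s + t) = C s + C t := C_add s t
  have e2 : C ((s + t) ^ 2 / 2) = C (s ^ 2 / 2) + C s * C t + C (t ^ 2 / 2) := by
    rw [← C_mul, ← C_add, ← C_add]
    congr 1
    field_simp
    ring
  have e3 : C ((s + t) ^ 3 / 6) =
      C (s ^ 3 / 6) + C (s ^ 2 / 2) * C t + C s * C (t ^ 2 / 2) + C (t ^ 3 / 6) := by
    rw [← C_mul, ← C_mul, ← C_add, ← C_add, ← C_add]
    congr 1
    have h62 : (6 : K) = 2 * 3 := by norm_num
    rw [h62]
    field_simp
    ring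
  have e4 : C ((s + t) ^ 4 / 24) =
      C (s ^ 4 / 24) + C (s ^ 3 / 6) * C t + C (s ^ 2 / 2) * C (t ^ 2 / 2) +
        C s * C (t ^ 3 / 6) + C (t ^ 4 / 24) := by
    rw [← C_mul, ← C_mul, ← C_mul, ← C_add, ← C_add, ← C_add, ← C_add]
    congr 1
    have h62 : (6 : K) = 2 * 3 := by norm_num
    have h242 : (24 : K) = 2 * 2 * 2 * 3 := by norm_num
    rw [h62, h242]
    field_simp
    ring
  rw [expQ_pows U (s + t), expQ_pows U s, expQ_pows U t, h0]
  simp only [add_mul, mul_add, expQ_smul_mul]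
  have z5 : U ^ 5 = 0 := hz 0
  have z6 : U ^ 6 = 0 := hz 1
  have z7 : U ^ 7 = 0 := hz 2
  have z8 : U ^ 8 = 0 := hz 3
  norm_num only [z5, z6, z7, z8, smul_zero, add_zero, zero_add]
  rw [e1, e2, e3, e4]
  module

theorem expQ_pow (h2 : (2 : K) ≠ 0) (h3 : (3 : K) ≠ 0) {U : Q K} (hU : U * U * U * U * U = 0)
    (j : ℕ) : expQ U 1 ^ j = expQ U (j : K) := by
  induction j with
  | zero =>
    rw [pow_zero, expQ_pows]
    have h : C (0 : K) = 0 := by ext <;> simp
    simp [h]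
  | succ j ih =>
    rw [pow_succ, ih, ← expQ_add h2 h3 hU]
    push_cast
    rfl

end Helper44.HU
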