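import Pool.Agent.Helper44.HU.LieA

/-!
# HU-5: the exponential of an element of the Lie algebra
-/

namespace Helper44.HU

open T4 Q

variable {K : Type} [Field K]

/-- `D_6 τ^3 U^2 = 0`, `T U^3 = 0`, so `U^4 = T U^2 + D U`. -/
theorem Par.fourth (P : Par K) :
    P.toQ * P.toQ * P.toQ * P.toQ = (⟨0, 0, P.T, 0⟩ : T4 K) • (P.toQ * P.toQ) +
      (⟨0, 0, 0, P.D⟩ : T4 K) • P.toQ := by
  rw [P.cube, add_mul, smul_mul_assoc, smul_mul_assoc, one_mul]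

private theorem top_smul_eq_zero (D : K) (a : T4 K) (ha : a.e0 = 0) :
    (⟨0, 0, 0, D⟩ : T4 K) * a = 0 := by
  ext <;> simp [ha]

theorem Par.fifth (P : Par K) : P.toQ * P.toQ * P.toQ * P.toQ * P.toQ = 0 := by
  have hTT : (⟨0, 0, P.T, 0⟩ : T4 K) * ⟨0, 0, P.T, 0⟩ = 0 := by
    ext <;> simp
  have hTD : (⟨0, 0, P.T, 0⟩ : T4 K) * ⟨0, 0, 0, P.D⟩ = 0 := by
    ext <;> simp
  have hD : (⟨0, 0, 0, P.D⟩ : T4 K) • (P.toQ * P.toQ) = 0 := by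
    obtain ⟨h1, h2, h3, h4, h5, h6, h7, h8, h9⟩ := P.sq_low
    have e1 : (P.toQ * P.toQ).a.e0 = 0 := by rw [h1]
    have e2 : (P.toQ * P.toQ).b.e0 = 0 := by rw [h2]
    have e3 : (P.toQ * P.toQ).c.e0 = 0 := by rw [h3]
    have e4 : (P.toQ * P.toQ).d.e0 = 0 := by rw [h4]
    have e5 : (P.toQ * P.toQ).u.e0 = 0 := by rw [h5]
    have e6 : (P.toQ * P.toQ).v.e0 = 0 := by rw [h6]
    have e7 : (P.toQ * P.toQ).r.e0 = 0 := by rw [h7]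
    have e8 : (P.toQ * P.toQ).s.e0 = 0 := by rw [h8]
    have e9 : (P.toQ * P.toQ).x.e0 = 0 := by rw [h9]
    apply Q.ext
    · exact top_smul_eq_zero _ _ e1
    · exact top_smul_eq_zero _ _ e2
    · exact top_smul_eq_zero _ _ e3
    · exact top_smul_eq_zero _ _ e4
    · exact top_smul_eq_zero _ _ e5
    · exact top_smul_eq_zero _ _ e6
    · exact top_smul_eq_zero _ _ e7
    · exact top_smul_eq_zero _ _ e8
    · exact top_smul_eq_zero _ _ e9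
  rw [P.fourth, add_mul, smul_mul_assoc, smul_mul_assoc, P.cube, smul_add, smul_smul, smul_smul,
    hTT, hTD, hD, zero_smul, zero_smul, add_zero, add_zero]

/-- The form of the exponential which is used for all computations. -/
theorem Par.exp_eq (P : Par K) (t : K) :
    expQ P.toQ t = (⟨1, 0, 0, t ^ 3 / 6 * P.D⟩ : T4 K) • (1 : Q K) +
      (⟨t, 0, t ^ 3 / 6 * P.T, t ^ 4 / 24 * P.D⟩ : T4 K) • P.toQ +
      (⟨t ^ 2 / 2, 0, t ^ 4 / 24 * P.T, 0⟩ : T4 K) • (P.toQ * P.toQ) := by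
  have h1 : (⟨1, 0, 0, t ^ 3 / 6 * P.D⟩ : T4 K) = 1 + C (t ^ 3 / 6) * ⟨0, 0, 0, P.D⟩ := by
    ext <;> simp
  have h2 : (⟨t, 0, t ^ 3 / 6 * P.T, t ^ 4 / 24 * P.D⟩ : T4 K) =
      C t + C (t ^ 3 / 6) * ⟨0, 0, P.T, 0⟩ + C (t ^ 4 / 24) * ⟨0, 0, 0, P.D⟩ := by
    ext <;> simp
  have h3 : (⟨t ^ 2 / 2, 0, t ^ 4 / 24 * P.T, 0⟩ : T4 K) =
      C (t ^ 2 / 2) + C (t ^ 4 / 24) * ⟨0, 0, P.T, 0⟩ := by
    ext <;> simp
  unfold expQ
  rw [P.fourth, P.cube, h1, h2, h3]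
  simp only [add_smul, smul_add, mul_smul, one_smul]
  abel

end Helper44.HU
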