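import Pool.Agent.Helper44.HU.Alg

/-!
# The Lie algebra and the exponential: definitions
-/

namespace Helper44.HU

open T4 Q

/-- coordinates of the 13-dimensional Lie algebra -/
structure Par (K : Type) where
  v0 : K
  v1 : K
  z : K
  w0 : K
  w1 : K
  q1 : K
  q2 : K
  q3 : K
  m0 : K
  m1 : K
  l : K
  n0 : K
  n1 : K

section ring

variable {K : Type} [CommRing K]

/-- the element of the Lie algebra -/
def Par.toQ (P : Par K) : Q K where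
  a := ⟨0, P.z, P.q1, P.l⟩
  b := ⟨0, 0, P.q2, 0⟩
  c := ⟨0, 0, P.q3, 0⟩
  d := ⟨0, P.z, -P.q1, P.l⟩
  u := ⟨P.v0, P.w0, P.m0, P.n0⟩
  v := ⟨P.v1, P.w1, P.m1, P.n1⟩
  r := ⟨-P.v1, P.w1, -P.m1, P.n1⟩
  s := ⟨P.v0, -P.w0, P.m0, -P.n0⟩
  x := ⟨0, -2 * P.z, 0, -2 * P.l⟩

/-- `E = 2 ω(v, w)` -/
def Par.E (P : Par K) : K := 2 * (P.v0 * P.w1 - P.v1 * P.w0)

/-- `q' = v^flat q v` -/
def Par.qq (P : Par K) : K := P.q3 * P.v0 ^ 2 - 2 * P.q1 * P.v0 * P.v1 - P.q2 * P.v1 ^ 2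

/-- `T = tr(U^2)/2`, at `τ^2` -/
def Par.T (P : Par K) : K := P.E + 3 * P.z ^ 2

/-- `D = det U`, at `τ^3` -/
def Par.D (P : Par K) : K := -2 * P.z ^ 3 + P.qq - P.z * P.E

end ring

section field

variable {K : Type} [Field K]

/-- truncated exponential `exp(t U)` -/
noncomputable def expQ (U : Q K) (t : K) : Q K :=
  1 + C t • U + C (t ^ 2 / 2) • (U * U) + C (t ^ 3 / 6) • (U * U * U) +
    C (t ^ 4 / 24) • (U * U * U * U)

end field

end Helper44.HU
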