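import Pool.Agent.Helper44.HU.Gam
import Pool.Agent.Helper44.HU.LieDef

/-!
# HU-6: Cayley-Hamilton for elements of the group

Write `N = h - 1`, `a = tr h`. `adj h = iota h` gives `sig h = tr (adj h) = bar a`. Coefficient
`τ^0` of `a` is `3`. Coefficient `τ^1` of `a`: by `Low.x1` it is `0`. Hence
`a = ⟨3, 0, a4, a6⟩`, `tr N = ⟨0, 0, a4, a6⟩`,
`sig N = bar a - 2 a + 3 = ⟨0, 0, -a4, -3 a6⟩` (`sig_sub_one`),
`det N = 1 - bar a + a - 1 = ⟨0, 0, 0, 2 a6⟩` (`det_sub_one`), and Cayley-Hamilton gives `cube`.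
-/

namespace Helper44.HU

open T4 Q

variable {K : Type} [Field K]

private theorem t4_two : (2 : T4 K) = ⟨2, 0, 0, 0⟩ := by
  have h : (2 : T4 K) = 1 + 1 := by norm_num
  rw [h]
  ext <;> simp <;> norm_num

private theorem t4_three : (3 : T4 K) = ⟨3, 0, 0, 0⟩ := by
  have h : (3 : T4 K) = 1 + 1 + 1 := by norm_num
  rw [h]
  ext <;> simp <;> norm_num

theorem trace_form (h2 : (2 : K) ≠ 0) {h : Q K} (hh : IsGam h) :
    ∃ a4 a6 : K, tr h = ⟨3, 0, a4, a6⟩ := by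
  have hl : Low h := hh.low (fun x y e => mul_left_cancel₀ h2 e)
  refine ⟨(tr h).e2, (tr h).e3, ?_⟩
  ext
  · simp only [tr, add_e0, hl.a0, hl.d0, hl.x0]
    norm_num
  · simp only [tr, add_e1, hl.x1]
    ring
  · rfl
  · rfl

/-- Cayley-Hamilton for `N = h - 1` -/
theorem cube_N (h2 : (2 : K) ≠ 0) {h : Q K} (hh : IsGam h) :
    ∃ a4 a6 : K, tr (h - 1) = ⟨0, 0, a4, a6⟩ ∧ sig (h - 1) = ⟨0, 0, -a4, -3 * a6⟩ ∧
      (h - 1) * (h - 1) * (h - 1) = (⟨0, 0, a4, a6⟩ : T4 K) • ((h - 1) * (h - 1)) +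
        (⟨0, 0, a4, 3 * a6⟩ : T4 K) • (h - 1) + (⟨0, 0, 0, 2 * a6⟩ : T4 K) • (1 : Q K) := by
  obtain ⟨a4, a6, ht⟩ := trace_form h2 hh
  have hs : sig h = ⟨3, 0, a4, -a6⟩ := by
    have h1 : sig h = bar (tr h) := by
      unfold sig
      rw [hh.hadj, tr_iota]
    rw [h1, ht]
    ext <;> simp
  have k1 : tr (h - 1) = ⟨0, 0, a4, a6⟩ := by
    rw [tr_sub_one, ht, t4_three]
    ext <;> simp
  have k2 : sig (h - 1) = ⟨0, 0, -a4, -3 * a6⟩ := by
    rw [sig_sub_one, ht, hs, t4_two, t4_three]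
    ext <;> simp <;> ring
  have k3 : det (h - 1) = ⟨0, 0, 0, 2 * a6⟩ := by
    rw [det_sub_one, ht, hs, hh.hdet]
    ext <;> simp
    ring
  refine ⟨a4, a6, k1, k2, ?_⟩
  have k4 := cayley (h - 1)
  rw [k1, k2, k3] at k4
  rw [k4, sub_eq_add_neg, ← neg_smul]
  congr 3
  ext <;> simp

/-- `N^5 = 0`: multiply `cube_N` by `N^2`. `N^2` has all entries divisible by `τ` (entries
of `N` at `τ^0`: only `u, v, r, s`; at `τ^0` the entries of `N^2` are `0`), so the constant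
term contributes `τ^3 N^2 = 0`. The term `⟨0,0,a4,3 a6⟩ • N^3`: `N^3` has entries divisible
by `τ^2` (use `cube_N` again; `τ^2 • N^3 = 0`). The term `⟨0,0,a4,a6⟩ • N^4`: same. -/
theorem fifth_N (h2 : (2 : K) ≠ 0) {h : Q K} (hh : IsGam h) :
    (h - 1) * (h - 1) * (h - 1) * (h - 1) * (h - 1) = 0 := by
  have hl : Low h := hh.low (fun x y e => mul_left_cancel₀ h2 e)
  obtain ⟨a4, a6, -, -, hc⟩ := cube_N h2 hh
  set N := h - 1 with hN
  have na : N.a.e0 = 0 := by simp [hN, hl.a0]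
  have nb : N.b.e0 = 0 := by simp [hN, hl.b0]
  have nc : N.c.e0 = 0 := by simp [hN, hl.c0]
  have nd : N.d.e0 = 0 := by simp [hN, hl.d0]
  have nx : N.x.e0 = 0 := by simp [hN, hl.x0]
  set t : T4 K := ⟨0, 0, a4, a6⟩ with hteq
  set s : T4 K := ⟨0, 0, a4, 3 * a6⟩ with hseq
  set δ : T4 K := ⟨0, 0, 0, 2 * a6⟩ with hδeq
  have tt : t * t = 0 := by ext <;> simp [hteq]
  have ts : t * s = 0 := by ext <;> simp [hteq, hseq]
  have tδ : t * δ = 0 := by ext <;> simp [hteq, hδeq]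
  have st : s * t = 0 := by rw [mul_comm, ts]
  have ss : s * s = 0 := by ext <;> simp [hseq]
  have sδ : s * δ = 0 := by ext <;> simp [hseq, hδeq]
  have tN3 : t • (N * N * N) = 0 := by
    rw [hc, smul_add, smul_add, smul_smul, smul_smul, smul_smul, tt, ts, tδ]
    simp
  have sN3 : s • (N * N * N) = 0 := by
    rw [hc, smul_add, smul_add, smul_smul, smul_smul, smul_smul, st, ss, sδ]
    simp
  have hδ0 : ∀ y : T4 K, y.e0 = 0 → δ * y = 0 := by
    intro y hy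
    ext <;> simp [hδeq, hy]
  have dN2 : δ • (N * N) = 0 := by
    ext1
    · exact hδ0 _ (by simp [na, nb])
    · exact hδ0 _ (by simp [na, nb])
    · exact hδ0 _ (by simp [nc, nd])
    · exact hδ0 _ (by simp [nc, nd])
    · exact hδ0 _ (by simp [na, nb, nx])
    · exact hδ0 _ (by simp [nc, nd, nx])
    · exact hδ0 _ (by simp [na, nc, nx])
    · exact hδ0 _ (by simp [nb, nd, nx])
    · exact hδ0 _ (by simp [nx])
  have e1 : N * N * N * N * N = (N * N * N) * (N * N) := by noncomm_ring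
  have e2 : t • (N * N) * (N * N) = (t • (N * N * N)) * N := by
    rw [smul_mul_assoc, smul_mul_assoc]
    congr 1
    noncomm_ring
  have e3 : s • N * (N * N) = s • (N * N * N) := by
    rw [smul_mul_assoc]
    congr 1
    noncomm_ring
  have e4 : δ • (1 : Q K) * (N * N) = δ • (N * N) := by
    rw [smul_mul_assoc, one_mul]
  rw [e1, hc, add_mul, add_mul, e2, e3, e4, tN3, sN3, dN2]
  simp

end Helper44.HU
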