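import Pool.Agent.Helper44.HU.LieDef

/-!
# HU-7: the truncated logarithm
-/

namespace Helper44.HU

open T4 Q

variable {K : Type} [Field K]

/-- truncated logarithm -/
noncomputable def logQ (N : Q K) : Q K :=
  N - C (1 / 2 : K) • (N * N) + C (1 / 3 : K) • (N * N * N) - C (1 / 4 : K) • (N * N * N * N)

/-- constants as a ring homomorphism -/
private def cHom (K : Type) [Field K] : K →+* T4 K where
  toFun := C
  map_one' := C_one
  map_mul' := C_mul
  map_zero' := by ext <;> simp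
  map_add' := C_add

private theorem cHom_apply (k : K) : cHom K k = C k := rfl

private theorem C_nat (h2 : (2 : K) ≠ 0) (h3 : (3 : K) ≠ 0) :
    C (1 / 2 : K) = 12 * C (1 / 24 : K) ∧ C (1 / 3 : K) = 8 * C (1 / 24 : K) ∧
    C (1 / 4 : K) = 6 * C (1 / 24 : K) ∧ C (1 / 6 : K) = 4 * C (1 / 24 : K) ∧
    24 * C (1 / 24 : K) = 1 := by
  have h24 : (24 : K) ≠ 0 := by
    have h : (24 : K) = 2 ^ 3 * 3 := by norm_num
    rw [h]
    exact mul_ne_zero (pow_ne_zero _ h2) h3
  have h4 : (4 : K) ≠ 0 := by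
    have h : (4 : K) = 2 ^ 2 := by norm_num
    rw [h]
    exact pow_ne_zero _ h2
  have h6 : (6 : K) ≠ 0 := by
    have h : (6 : K) = 2 * 3 := by norm_num
    rw [h]
    exact mul_ne_zero h2 h3
  refine ⟨?_, ?_, ?_, ?_, ?_⟩
  · have h : (1 / 2 : K) = 12 * (1 / 24) := by
      rw [mul_one_div, div_eq_div_iff h2 h24]
      norm_num
    rw [h, C_mul, ← cHom_apply 12, map_ofNat]
  · have h : (1 / 3 : K) = 8 * (1 / 24) := by
      rw [mul_one_div, div_eq_div_iff h3 h24]
      norm_num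
    rw [h, C_mul, ← cHom_apply 8, map_ofNat]
  · have h : (1 / 4 : K) = 6 * (1 / 24) := by
      rw [mul_one_div, div_eq_div_iff h4 h24]
      norm_num
    rw [h, C_mul, ← cHom_apply 6, map_ofNat]
  · have h : (1 / 6 : K) = 4 * (1 / 24) := by
      rw [mul_one_div, div_eq_div_iff h6 h24]
      norm_num
    rw [h, C_mul, ← cHom_apply 4, map_ofNat]
  · have h : (1 : K) = 24 * (1 / 24) := by
      rw [mul_one_div, div_self h24]
    rw [← C_one (K := K)]
    conv_rhs => rw [h]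
    rw [C_mul, ← cHom_apply 24, map_ofNat]

/-- the logarithm polynomial -/
private noncomputable def PL (c Y : Polynomial (T4 K)) : Polynomial (T4 K) :=
  Y - 12 * c * Y ^ 2 + 8 * c * Y ^ 3 - 6 * c * Y ^ 4

private theorem aeval_PL (h2 : (2 : K) ≠ 0) (h3 : (3 : K) ≠ 0) (N : Q K)
    (Y : Polynomial (T4 K)) :
    Polynomial.aeval N (PL (Polynomial.C (C (1 / 24 : K))) Y) =
      logQ (Polynomial.aeval N Y) := by
  obtain ⟨e2, e3, e4, -, -⟩ := C_nat h2 h3
  have key : ∀ (n : ℕ) (k : T4 K), Polynomial.aeval N ((Polynomial.C k) * Y ^ n) =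
      k • (Polynomial.aeval N Y) ^ n := by
    intro n k
    rw [map_mul, Polynomial.aeval_C, map_pow, Algebra.smul_def]
  have e : PL (Polynomial.C (C (1 / 24 : K))) Y =
      Y - Polynomial.C (C (1 / 2 : K)) * Y ^ 2 + Polynomial.C (C (1 / 3 : K)) * Y ^ 3 -
        Polynomial.C (C (1 / 4 : K)) * Y ^ 4 := by
    rw [e2, e3, e4, PL]
    simp only [Polynomial.C_mul, map_ofNat]
  rw [e, map_sub, map_add, map_sub, key, key, key, logQ]
  simp only [pow_succ, pow_zero, one_mul]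

private theorem aeval_exp (h2 : (2 : K) ≠ 0) (h3 : (3 : K) ≠ 0) (N : Q K)
    (Y : Polynomial (T4 K)) :
    Polynomial.aeval N (1 + Y + 12 * (Polynomial.C (C (1 / 24 : K))) * Y ^ 2 +
      4 * (Polynomial.C (C (1 / 24 : K))) * Y ^ 3 + (Polynomial.C (C (1 / 24 : K))) * Y ^ 4) =
      expQ (Polynomial.aeval N Y) 1 := by
  obtain ⟨e2, -, -, e6, -⟩ := C_nat h2 h3
  have key : ∀ (n : ℕ) (k : T4 K), Polynomial.aeval N ((Polynomial.C k) * Y ^ n) =
      k • (Polynomial.aeval N Y) ^ n := by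
    intro n k
    rw [map_mul, Polynomial.aeval_C, map_pow, Algebra.smul_def]
  have e : 1 + Y + 12 * (Polynomial.C (C (1 / 24 : K))) * Y ^ 2 +
      4 * (Polynomial.C (C (1 / 24 : K))) * Y ^ 3 + (Polynomial.C (C (1 / 24 : K))) * Y ^ 4 =
      1 + Y + Polynomial.C (C (1 / 2 : K)) * Y ^ 2 + Polynomial.C (C (1 / 6 : K)) * Y ^ 3 +
        Polynomial.C (C (1 / 24 : K)) * Y ^ 4 := by
    rw [e2, e6]
    simp only [Polynomial.C_mul, map_ofNat]
  rw [e, map_add, map_add, map_add, map_add, key, key, key, map_one, expQ]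
  simp only [pow_succ, pow_zero, one_mul, C_one, one_smul]

private theorem hC (h2 : (2 : K) ≠ 0) (h3 : (3 : K) ≠ 0) :
    24 * Polynomial.C (C (1 / 24 : K)) = 1 := by
  obtain ⟨-, -, -, -, e⟩ := C_nat h2 h3
  have h := congrArg (Polynomial.C (R := T4 K)) e
  rw [Polynomial.C_mul, map_ofNat, map_one] at h
  exact h

private theorem pow5 {N : Q K} (hN : N * N * N * N * N = 0) : N ^ 5 = 0 := by
  simpa only [pow_succ, pow_zero, one_mul] using hN

/-- identity of polynomials in one variable modulo `N^5` -/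
theorem exp_log (h2 : (2 : K) ≠ 0) (h3 : (3 : K) ≠ 0) {N : Q K} (hN : N * N * N * N * N = 0) :
    expQ (logQ N) 1 = 1 + N := by
  have hX : Polynomial.aeval N (Polynomial.X : Polynomial (T4 K)) = N := Polynomial.aeval_X N
  have h := aeval_exp h2 h3 N (PL (Polynomial.C (C (1 / 24 : K))) Polynomial.X)
  rw [aeval_PL h2 h3, hX] at h
  rw [← h]
  have hc := hC h2 h3
  generalize Polynomial.C (C (1 / 24 : K)) = c at hc ⊢
  have e : (1 + PL c Polynomial.X + 12 * c * PL c Polynomial.X ^ 2 +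
      4 * c * PL c Polynomial.X ^ 3 + c * PL c Polynomial.X ^ 4) =
      1 + Polynomial.X + Polynomial.X ^ 5 *
      ((-96)*c^2 + (-576)*c^3 + (-40)*c^2*Polynomial.X^1 + (1056)*c^3*Polynomial.X^1
      + (-6912)*c^4*Polynomial.X^1 + (-24)*c^2*Polynomial.X^2 + (192)*c^3*Polynomial.X^2
      + (6912)*c^4*Polynomial.X^2 + (528)*c^3*Polynomial.X^3 + (-5760)*c^4*Polynomial.X^3
      + (20736)*c^5*Polynomial.X^3 + (-144)*c^3*Polynomial.X^4 + (-3712)*c^4*Polynomial.X^4
      + (-55296)*c^5*Polynomial.X^4 + (216)*c^3*Polynomial.X^5 + (6080)*c^4*Polynomial.X^5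
      + (96768)*c^5*Polynomial.X^5 + (-6336)*c^4*Polynomial.X^6 + (-107520)*c^5*Polynomial.X^6
      + (2592)*c^4*Polynomial.X^7 + (90496)*c^5*Polynomial.X^7 + (-864)*c^4*Polynomial.X^8
      + (-53760)*c^5*Polynomial.X^8 + (24192)*c^5*Polynomial.X^9 + (-6912)*c^5*Polynomial.X^10
      + (1296)*c^5*Polynomial.X^11) := by
    unfold PL
    linear_combination ((-12)*c^1*Polynomial.X^3 + (5)*c^1*Polynomial.X^4 +
      (72)*c^2*Polynomial.X^4) * hc
  rw [e, map_add, map_add, map_mul, map_pow, hX, pow5 hN, zero_mul, add_zero, map_one]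

theorem logQ_fifth {N : Q K} (hN : N * N * N * N * N = 0) :
    logQ N * logQ N * logQ N * logQ N * logQ N = 0 := by
  have hX : Polynomial.aeval N (Polynomial.X : Polynomial (T4 K)) = N := Polynomial.aeval_X N
  have key : ∀ (n : ℕ) (k : T4 K), Polynomial.aeval N ((Polynomial.C k) * Polynomial.X ^ n) =
      k • N ^ n := by
    intro n k
    rw [map_mul, Polynomial.aeval_C, map_pow, Algebra.smul_def, hX]
  have e : logQ N = Polynomial.aeval N (Polynomial.X * (1
      - Polynomial.C (C (1 / 2 : K)) * Polynomial.X + Polynomial.C (C (1 / 3 : K)) *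
      Polynomial.X ^ 2 - Polynomial.C (C (1 / 4 : K)) * Polynomial.X ^ 3)) := by
    have e' : (Polynomial.X * (1
      - Polynomial.C (C (1 / 2 : K)) * Polynomial.X + Polynomial.C (C (1 / 3 : K)) *
      Polynomial.X ^ 2 - Polynomial.C (C (1 / 4 : K)) * Polynomial.X ^ 3)) =
      Polynomial.X - Polynomial.C (C (1 / 2 : K)) * Polynomial.X ^ 2
        + Polynomial.C (C (1 / 3 : K)) * Polynomial.X ^ 3 -
        Polynomial.C (C (1 / 4 : K)) * Polynomial.X ^ 4 := by ring
    rw [e', map_sub, map_add, map_sub, key, key, key, hX, logQ]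
    simp only [pow_succ, pow_zero, one_mul]
  rw [e, ← map_mul, ← map_mul, ← map_mul, ← map_mul]
  generalize (1 - Polynomial.C (C (1 / 2 : K)) * Polynomial.X + Polynomial.C (C (1 / 3 : K)) *
      Polynomial.X ^ 2 - Polynomial.C (C (1 / 4 : K)) * Polynomial.X ^ 3) = Z
  have e2 : Polynomial.X * Z * (Polynomial.X * Z) * (Polynomial.X * Z) * (Polynomial.X * Z) *
      (Polynomial.X * Z) = Polynomial.X ^ 5 * Z ^ 5 := by ring
  rw [e2, map_mul, map_pow, hX, pow5 hN, zero_mul]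

/-- `(1 + N)(1 + M) = 1` gives `M = -N + N^2 - N^3 + N^4`, and then `log (1 + M) = -log (1 + N)`
is an identity of polynomials modulo `N^5`. -/
theorem logQ_inv (h2 : (2 : K) ≠ 0) (h3 : (3 : K) ≠ 0) {N M : Q K}
    (hN : N * N * N * N * N = 0) (h : (1 + N) * (1 + M) = 1) :
    logQ M = -logQ N := by
  have hX : Polynomial.aeval N (Polynomial.X : Polynomial (T4 K)) = N := Polynomial.aeval_X N
  have hl : (1 - N + N ^ 2 - N ^ 3 + N ^ 4) * (1 + N) = 1 := by
    have e : (1 - N + N ^ 2 - N ^ 3 + N ^ 4) * (1 + N) = 1 + N ^ 5 := by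
      noncomm_ring
    rw [e, pow5 hN, add_zero]
  have hM : 1 + M = 1 - N + N ^ 2 - N ^ 3 + N ^ 4 := by
    calc 1 + M = ((1 - N + N ^ 2 - N ^ 3 + N ^ 4) * (1 + N)) * (1 + M) := by rw [hl, one_mul]
      _ = (1 - N + N ^ 2 - N ^ 3 + N ^ 4) * ((1 + N) * (1 + M)) := by rw [mul_assoc]
      _ = _ := by rw [h, mul_one]
  have hM' : M = -N + N ^ 2 - N ^ 3 + N ^ 4 := by
    have e : M = (1 + M) - 1 := by abel
    rw [e, hM]
    abel
  have hM2 : M = Polynomial.aeval N (-Polynomial.X + Polynomial.X ^ 2 - Polynomial.X ^ 3 +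
      Polynomial.X ^ 4 : Polynomial (T4 K)) := by
    rw [map_add, map_sub, map_add, map_neg, map_pow, map_pow, map_pow, hX]
    exact hM'
  have hlog : logQ N = Polynomial.aeval N (PL (Polynomial.C (C (1 / 24 : K))) Polynomial.X) := by
    rw [aeval_PL h2 h3, hX]
  rw [hM2, ← aeval_PL h2 h3, hlog, ← map_neg]
  have hc := hC h2 h3
  generalize Polynomial.C (C (1 / 24 : K)) = c at hc ⊢
  have e : PL c (-Polynomial.X + Polynomial.X ^ 2 - Polynomial.X ^ 3 + Polynomial.X ^ 4) =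
      -PL c Polynomial.X + Polynomial.X ^ 5 *
      ((24)*c^1 + (-16)*c^1*Polynomial.X^1 + (48)*c^1*Polynomial.X^2 + (-102)*c^1*Polynomial.X^3
      + (160)*c^1*Polynomial.X^4 + (-216)*c^1*Polynomial.X^5 + (216)*c^1*Polynomial.X^6
      + (-178)*c^1*Polynomial.X^7 + (120)*c^1*Polynomial.X^8 + (-60)*c^1*Polynomial.X^9
      + (24)*c^1*Polynomial.X^10 + (-6)*c^1*Polynomial.X^11) := by
    unfold PL
    linear_combination ((-1)*Polynomial.X^2 + (1)*Polynomial.X^3 + (-1)*Polynomial.X^4) * hc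
  rw [e, map_add, map_mul, map_pow, hX, pow5 hN, zero_mul, add_zero]

end Helper44.HU
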