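import Pool.Agent.Helper44.HU.LieB
import Pool.Agent.Helper44.HU.LogA
import Pool.Agent.Helper44.HU.LogB

/-!
# HU-8: every element of the group is the exponential of an element of the Lie algebra
-/

namespace Helper44.HU

open T4 Q

variable {K : Type} [Field K]

/-- `iota` commutes with the logarithm (it is an anti-automorphism, additive, and fixes the
scalars `C k`); with `iota h * h = 1` and `logQ_inv`. -/
theorem iota_log (h2 : (2 : K) ≠ 0) (h3 : (3 : K) ≠ 0) {h : Q K} (hh : IsGam h) :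
    iota (logQ (h - 1)) = -logQ (h - 1) := by
  have h5 := fifth_N h2 hh
  have hM : iota (h - 1) = iota h - 1 := by rw [Q.iota_sub, Q.iota_one]
  have h1 : (1 + (h - 1)) * (1 + (iota h - 1)) = 1 := by
    rw [add_sub_cancel, add_sub_cancel]
    exact hh.mul_iota
  have key := logQ_inv h2 h3 h5 h1
  rw [← hM] at key
  rw [← key]
  simp only [logQ, Q.iota_sub, Q.iota_add, Q.iota_smul, Q.iota_mul, bar_C, Q.iota_one, mul_assoc]

private theorem T4_mul_hi (a b c d : K) : (⟨0, 0, a, b⟩ : T4 K) * ⟨0, 0, c, d⟩ = 0 := by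
  ext <;> simp

/-- With `N^3` from `cube_N`, `N^4 = ⟨0,0,a4,3a6⟩ • N^2 + ⟨0,0,0,2a6⟩ • N` one gets
`tr (N^3)`, `tr (N^4) = 0` and `tr log = ⟨0,0,a4,a6⟩ - ⟨0,0,a4,3a6⟩ + ⟨0,0,0,2a6⟩ = 0`
(`tr N^2 = (tr N)^2 - 2 sig N = 2 ⟨0,0,a4,3a6⟩`, `tr N^3 = ⟨0,0,0,6 a6⟩`). -/
theorem tr_log (h2 : (2 : K) ≠ 0) (h3 : (3 : K) ≠ 0) {h : Q K} (hh : IsGam h) :
    tr (logQ (h - 1)) = 0 := by
  obtain ⟨a4, a6, ht, hs, hc⟩ := cube_N h2 hh
  set N := h - 1 with hN
  have t2 : tr (N * N) = ⟨0, 0, 2 * a4, 6 * a6⟩ := by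
    rw [Q.tr_sq, ht, hs, sq, T4_mul_hi, two_mul]
    ext <;> simp <;> ring
  have t3 : tr (N * N * N) = ⟨0, 0, 0, 6 * a6⟩ := by
    rw [hc, Q.tr_add, Q.tr_add, Q.tr_smul, Q.tr_smul, Q.tr_smul, t2, ht, Q.tr_one, T4_mul_hi,
      T4_mul_hi, show (3 : T4 K) = 1 + 1 + 1 by norm_num]
    ext <;> simp <;> ring
  have c4 : N * N * N * N = (⟨0, 0, a4, a6⟩ : T4 K) • (N * N * N) +
      (⟨0, 0, a4, 3 * a6⟩ : T4 K) • (N * N) + (⟨0, 0, 0, 2 * a6⟩ : T4 K) • N := by
    conv_lhs => rw [hc]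
    rw [add_mul, add_mul, smul_mul_assoc, smul_mul_assoc, smul_mul_assoc, one_mul]
  have t4 : tr (N * N * N * N) = 0 := by
    rw [c4, Q.tr_add, Q.tr_add, Q.tr_smul, Q.tr_smul, Q.tr_smul, t2, t3, ht, T4_mul_hi,
      T4_mul_hi, T4_mul_hi]
    simp
  have hneg : ∀ g : Q K, tr (-g) = -tr g := fun g => by
    have : g + -g = 0 := by abel
    have h0 : tr (g + -g) = 0 := by rw [this]; simp [tr]
    rw [Q.tr_add] at h0
    linear_combination h0
  unfold logQ
  rw [sub_eq_add_neg, sub_eq_add_neg, Q.tr_add, Q.tr_add, Q.tr_add, hneg, hneg, Q.tr_smul,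
    Q.tr_smul, Q.tr_smul, ht, t2, t3, t4]
  ext
  · simp
  · simp
  · simp
    field_simp
    ring
  · simp
    field_simp
    ring

/-- An element `U` with `iota U = -U`, `tr U = 0` and vanishing entries `a, b, c, d, x` at
`τ^0` belongs to the Lie algebra. -/
theorem exists_par (h2 : (2 : K) ≠ 0) {U : Q K} (h1 : iota U = -U) (ht : tr U = 0)
    (ha : U.a.e0 = 0) (hb : U.b.e0 = 0) (hc : U.c.e0 = 0) (hx : U.x.e0 = 0) :
    ∃ P : Par K, U = P.toQ := by
  have two : ∀ y : K, -y = y → y = 0 := fun y hy => by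
    have : 2 * y = 0 := by linear_combination -hy
    exact (mul_eq_zero.mp this).resolve_left h2
  have ea : bar U.d = -U.a := congrArg Q.a h1
  have eb : -bar U.b = -U.b := congrArg Q.b h1
  have ec : -bar U.c = -U.c := congrArg Q.c h1
  have er : bar U.v = -U.r := congrArg Q.r h1
  have es : -bar U.u = -U.s := congrArg Q.s h1
  have ex : bar U.x = -U.x := congrArg Q.x h1
  have a0 := congrArg T4.e0 ea
  have a1 := congrArg T4.e1 ea
  have a2 := congrArg T4.e2 ea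
  have a3 := congrArg T4.e3 ea
  have b1 := congrArg T4.e1 eb
  have b3 := congrArg T4.e3 eb
  have c1 := congrArg T4.e1 ec
  have c3 := congrArg T4.e3 ec
  have r0 := congrArg T4.e0 er
  have r1 := congrArg T4.e1 er
  have r2 := congrArg T4.e2 er
  have r3 := congrArg T4.e3 er
  have s0 := congrArg T4.e0 es
  have s1 := congrArg T4.e1 es
  have s2 := congrArg T4.e2 es
  have s3 := congrArg T4.e3 es
  have x2 := congrArg T4.e2 ex
  have t1 := congrArg T4.e1 ht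
  have t3 := congrArg T4.e3 ht
  simp only [tr, bar_e0, bar_e1, bar_e2, bar_e3, neg_e0, neg_e1, neg_e2, neg_e3, add_e1, add_e3,
    zero_e1, zero_e3] at a0 a1 a2 a3 b1 b3 c1 c3 r0 r1 r2 r3 s0 s1 s2 s3 x2 t1 t3
  have b1' : U.b.e1 = 0 := two _ (by linear_combination -b1)
  have b3' : U.b.e3 = 0 := two _ (by linear_combination -b3)
  have c1' : U.c.e1 = 0 := two _ (by linear_combination -c1)
  have c3' : U.c.e3 = 0 := two _ (by linear_combination -c3)
  have x2' : U.x.e2 = 0 := two _ (by linear_combination -x2)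
  refine ⟨⟨U.u.e0, U.v.e0, U.a.e1, U.u.e1, U.v.e1, U.a.e2, U.b.e2, U.c.e2, U.u.e2, U.v.e2,
    U.a.e3, U.u.e3, U.v.e3⟩, ?_⟩
  ext <;> simp only [Par.toQ]
  all_goals first
    | rfl
    | assumption
    | linear_combination ha
    | linear_combination a0 - ha
    | linear_combination a0 + ha
    | linear_combination -a1
    | linear_combination a2
    | linear_combination -a3
    | linear_combination -r0
    | linear_combination -r1
    | linear_combination -r2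
    | linear_combination -r3
    | linear_combination -s0
    | linear_combination -s1
    | linear_combination -s2
    | linear_combination -s3
    | linear_combination s0
    | linear_combination s1
    | linear_combination s2
    | linear_combination s3
    | linear_combination r0
    | linear_combination r1
    | linear_combination r2
    | linear_combination r3
    | linear_combination a1
    | linear_combination a3
    | linear_combination t1 + a1
    | linear_combination t3 + a3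
    | linear_combination t1 - a1
    | linear_combination t3 - a3

private theorem sq_zero {N M : Q K} (ha : N.a.e0 = 0) (hb : N.b.e0 = 0) (hc : N.c.e0 = 0)
    (hd : N.d.e0 = 0) (hx : N.x.e0 = 0) (ha' : M.a.e0 = 0) (hb' : M.b.e0 = 0)
    (hc' : M.c.e0 = 0) (hd' : M.d.e0 = 0) (hx' : M.x.e0 = 0) :
    (N * M).a.e0 = 0 ∧ (N * M).b.e0 = 0 ∧ (N * M).c.e0 = 0 ∧ (N * M).d.e0 = 0 ∧
      (N * M).x.e0 = 0 ∧ (N * M).u.e0 = 0 ∧ (N * M).v.e0 = 0 := by
  simp [ha, hb, hc, hd, hx, ha', hb', hc', hd', hx']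

private theorem log_low {N : Q K} (na : N.a.e0 = 0) (nb : N.b.e0 = 0) (nc : N.c.e0 = 0)
    (nd : N.d.e0 = 0) (nx : N.x.e0 = 0) :
    (logQ N).a.e0 = 0 ∧ (logQ N).b.e0 = 0 ∧ (logQ N).c.e0 = 0 ∧ (logQ N).x.e0 = 0 ∧
      (logQ N).u.e0 = N.u.e0 ∧ (logQ N).v.e0 = N.v.e0 := by
  obtain ⟨sa, sb, sc, sd, sx, su, sv⟩ := sq_zero na nb nc nd nx na nb nc nd nx
  obtain ⟨ca, cb, cc, cd, cx, cu, cv⟩ := sq_zero sa sb sc sd sx na nb nc nd nx
  obtain ⟨fa, fb, fc, fd, fx, fu, fv⟩ := sq_zero ca cb cc cd cx na nb nc nd nx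
  simp only [logQ, sub_a, add_a, smul_a, sub_b, add_b, smul_b, sub_c, add_c, smul_c, sub_x, add_x,
    smul_x, sub_u, add_u, smul_u, sub_v, add_v, smul_v, sub_e0, add_e0]
  have e0 : ∀ (k : K) (z : T4 K), z.e0 = 0 → (C k * z).e0 = 0 := fun k z hz => by simp [hz]
  rw [e0 _ _ sa, e0 _ _ sb, e0 _ _ sc, e0 _ _ sx, e0 _ _ su, e0 _ _ sv, e0 _ _ ca, e0 _ _ cb,
    e0 _ _ cc, e0 _ _ cx, e0 _ _ cu, e0 _ _ cv, e0 _ _ fa, e0 _ _ fb, e0 _ _ fc, e0 _ _ fx,
    e0 _ _ fu, e0 _ _ fv, na, nb, nc, nx]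
  simp

/-- Main result of this file. -/
theorem exists_exp (h2 : (2 : K) ≠ 0) (h3 : (3 : K) ≠ 0) {h : Q K} (hh : IsGam h) :
    ∃ P : Par K, (∀ j : ℕ, h ^ j = expQ P.toQ (j : K)) ∧ P.v0 = h.u.e0 ∧ P.v1 = h.v.e0 := by
  have h5 := fifth_N h2 hh
  have na : (h - 1).a.e0 = 0 := by simp [hh.a0]
  have nb : (h - 1).b.e0 = 0 := by simp [hh.b0]
  have nc : (h - 1).c.e0 = 0 := by simp [hh.c0]
  have nd : (h - 1).d.e0 = 0 := by simp [hh.d0]
  have nx : (h - 1).x.e0 = 0 := by simp [hh.x0]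
  obtain ⟨la, lb, lc, lx, lu, lv⟩ := log_low na nb nc nd nx
  have nu : (h - 1).u.e0 = h.u.e0 := by simp
  have nv : (h - 1).v.e0 = h.v.e0 := by simp
  obtain ⟨P, hP⟩ := exists_par h2 (iota_log h2 h3 hh) (tr_log h2 h3 hh) la lb lc lx
  refine ⟨P, fun j => ?_, ?_, ?_⟩
  · rw [← hP, ← expQ_pow h2 h3 (logQ_fifth h5), exp_log h2 h3 h5, add_sub_cancel]
  · rw [← nu, ← lu, hP]; rfl
  · rw [← nv, ← lv, hP]; rfl

end Helper44.HU
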