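import Pool.Agent.Helper44.HU.LieC
import Pool.Agent.Helper44.HU.LogC
import Pool.Agent.Helper44.HU.Fun
import Pool.Agent.Helper44.HU.AntiB

/-!
# HU-19: assembly
-/

namespace Helper44.HU

open T4 Q

variable {p : ℕ} [Fact p.Prime]

theorem two_ne (hp : 3 < p) : (2 : ZMod p) ≠ 0 := by
  intro h
  have h1 : ((2 : ℕ) : ZMod p) = 0 := by exact_mod_cast h
  rw [ZMod.natCast_eq_zero_iff] at h1
  have := Nat.le_of_dvd (by norm_num) h1
  omega

theorem three_ne (hp : 3 < p) : (3 : ZMod p) ≠ 0 := by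
  intro h
  have h1 : ((3 : ℕ) : ZMod p) = 0 := by exact_mod_cast h
  rw [ZMod.natCast_eq_zero_iff] at h1
  have := Nat.le_of_dvd (by norm_num) h1
  omega

/-- every even number at least four is `4 a + 6 b` -/
theorem exists_ab {n : ℕ} (h : 4 ≤ n) (h' : Even n) : ∃ a b, 4 * a + 6 * b = n := by
  obtain ⟨m, hm⟩ := h'
  rcases Nat.even_or_odd m with h1 | h1
  · obtain ⟨k, hk⟩ := h1
    exact ⟨k, 0, by omega⟩
  · obtain ⟨k, hk⟩ := h1
    exact ⟨k - 1, 1, by omega⟩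

theorem expQ_zero {K : Type} [Field K] (U : Q K) : expQ U 0 = 1 := by
  unfold expQ
  ext1 <;> ext <;> simp

theorem pow_p_eq_one (hp : 3 < p) (h : Gam (ZMod p)) : h ^ p = 1 := by
  obtain ⟨P, hP, -, -⟩ := exists_exp (two_ne hp) (three_ne hp) h.2
  apply Subtype.ext
  rw [Gam.coe_pow, Gam.coe_one, hP p, ZMod.natCast_self, expQ_zero]

/-- the function `F = f4^a f6^b` -/
theorem sum_F (hp : 3 < p) (a b : ℕ) (hab : 4 * a + 6 * b = p - 1) (g h : Gam (ZMod p)) :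
    ∑ j ∈ Finset.range p, (f4 (g * h ^ j).1 ^ a * f6 (g * h ^ j).1 ^ b) =
      -(g.1.u.e0 * h.1.v.e0 - g.1.v.e0 * h.1.u.e0) ^ (p - 1) := by
  have h2 := two_ne hp
  have h3 := three_ne hp
  obtain ⟨P, hP, hv0, hv1⟩ := exists_exp h2 h3 h.2
  have hg : Low g.1 := g.2.low (fun x y e => mul_left_cancel₀ h2 e)
  have t4 := (top_f4 h2 h3 g.1 P hg).pow a
  have t6 := (top_f6 h2 h3 g.1 P hg).pow b
  have t := t4.mul t6
  rw [hab, ← pow_mul, ← pow_mul, ← pow_add, hab] at t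
  have e := t.sum_eq
  have ho : om g.1 P = g.1.u.e0 * h.1.v.e0 - g.1.v.e0 * h.1.u.e0 := by
    unfold om
    rw [hv0, hv1]
  rw [ho] at e
  rw [← e]
  apply Finset.sum_congr rfl
  intro j _
  rw [Gam.coe_mul, Gam.coe_pow, hP j]

/-- **Main theorem**: anti-Hughes groups exist for all primes `p > 3`. -/
theorem main (hp : 3 < p) : ∃ (G : Type) (_ : Group G), Finite G ∧ IsPGroup p G ∧
    hughes p G ≠ ⊥ ∧ (hughes p G).index = p ^ 2 := by
  have hpp : p.Prime := Fact.out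
  have hne : p ≠ 2 := by omega
  have hodd : Odd p := hpp.odd_of_ne_two hne
  obtain ⟨k, hk⟩ := hodd
  have h4 : 4 ≤ p - 1 := by omega
  have heven : Even (p - 1) := ⟨k, by omega⟩
  obtain ⟨a, b, hab⟩ := exists_ab h4 heven
  have hi : (2 : ZMod p) * (2 : ZMod p)⁻¹ = 1 := mul_inv_cancel₀ (two_ne hp)
  exact exists_antiHughes_of_F p (Gam (ZMod p)) (pow_p_eq_one hp) (fun g => g.1.u.e0)
    (fun g => g.1.v.e0) s_mul t_mul (fun x y => exists_st hi x y)
    (fun g => f4 g.1 ^ a * f6 g.1 ^ b) (fun g h => sum_F hp a b hab g h)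

end Helper44.HU
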