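import Mathlib

/-!
# HU-9: functions which are polynomials with known leading coefficients
-/

namespace Helper44.HU

open Polynomial

variable {K : Type} [Field K]

/-- `f` is a polynomial function of degree at most `n` and `c` is the coefficient at degree `n`. -/
def HasTop (f : K → K) (n : ℕ) (c : K) : Prop :=
  ∃ q : K[X], q.natDegree ≤ n ∧ q.coeff n = c ∧ ∀ t, f t = q.eval t

/-- `f` is a polynomial function of degree at most `n + 1`, with coefficient `c` at degree
`n + 1` and coefficient `c'` at degree `n`. -/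
def HasTop2 (f : K → K) (n : ℕ) (c c' : K) : Prop :=
  ∃ q : K[X], q.natDegree ≤ n + 1 ∧ q.coeff (n + 1) = c ∧ q.coeff n = c' ∧ ∀ t, f t = q.eval t

theorem HasTop.add {f g : K → K} {n : ℕ} {a b : K} (hf : HasTop f n a) (hg : HasTop g n b) :
    HasTop (fun t => f t + g t) n (a + b) := by
  obtain ⟨q, h1, h2, h3⟩ := hf
  obtain ⟨r, k1, k2, k3⟩ := hg
  exact ⟨q + r, natDegree_add_le_of_degree_le h1 k1, by rw [coeff_add, h2, k2],
    fun t => by rw [eval_add, ← h3, ← k3]⟩

theorem HasTop.sub {f g : K → K} {n : ℕ} {a b : K} (hf : HasTop f n a) (hg : HasTop g n b) :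
    HasTop (fun t => f t - g t) n (a - b) := by
  obtain ⟨q, h1, h2, h3⟩ := hf
  obtain ⟨r, k1, k2, k3⟩ := hg
  exact ⟨q - r, (natDegree_sub_le q r).trans (max_le h1 k1), by rw [coeff_sub, h2, k2],
    fun t => by rw [eval_sub, ← h3, ← k3]⟩

theorem HasTop.const_mul {f : K → K} {n : ℕ} {a : K} (k : K) (hf : HasTop f n a) :
    HasTop (fun t => k * f t) n (k * a) := by
  obtain ⟨q, h1, h2, h3⟩ := hf
  exact ⟨C k * q, (natDegree_C_mul_le k q).trans h1, by rw [coeff_C_mul, h2],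
    fun t => by rw [eval_mul, eval_C, ← h3]⟩

theorem HasTop.mul {f g : K → K} {n m : ℕ} {a b : K} (hf : HasTop f n a) (hg : HasTop g m b) :
    HasTop (fun t => f t * g t) (n + m) (a * b) := by
  obtain ⟨q, h1, h2, h3⟩ := hf
  obtain ⟨r, k1, k2, k3⟩ := hg
  exact ⟨q * r, natDegree_mul_le.trans (add_le_add h1 k1),
    by rw [coeff_mul_add_eq_of_natDegree_le h1 k1, h2, k2], fun t => by rw [eval_mul, ← h3, ← k3]⟩

theorem HasTop.pow {f : K → K} {n : ℕ} {a : K} (hf : HasTop f n a) (m : ℕ) :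
    HasTop (fun t => f t ^ m) (n * m) (a ^ m) := by
  induction m with
  | zero =>
    refine ⟨1, by simp, by simp, fun t => by simp⟩
  | succ m ih =>
    have h := ih.mul hf
    have e1 : n * (m + 1) = n * m + n := by ring
    rw [e1, pow_succ]
    obtain ⟨q, h1, h2, h3⟩ := h
    exact ⟨q, h1, h2, fun t => by rw [← h3]; exact pow_succ (f t) m⟩

theorem HasTop2.add {f g : K → K} {n : ℕ} {a a' b b' : K} (hf : HasTop2 f n a a')
    (hg : HasTop2 g n b b') : HasTop2 (fun t => f t + g t) n (a + b) (a' + b') := by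
  obtain ⟨q, h1, h2, h2', h3⟩ := hf
  obtain ⟨r, k1, k2, k2', k3⟩ := hg
  exact ⟨q + r, natDegree_add_le_of_degree_le h1 k1, by rw [coeff_add, h2, k2],
    by rw [coeff_add, h2', k2'], fun t => by rw [eval_add, ← h3, ← k3]⟩

theorem HasTop2.mul {f g : K → K} {n m : ℕ} {a a' b b' : K} (hf : HasTop2 f n a a')
    (hg : HasTop2 g m b b') :
    HasTop2 (fun t => f t * g t) (n + m + 1) (a * b) (a * b' + a' * b) := by
  obtain ⟨q, h1, h2, h2', h3⟩ := hf
  obtain ⟨r, k1, k2, k2', k3⟩ := hg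
  refine ⟨q * r, ?_, ?_, ?_, fun t => by rw [eval_mul, ← h3, ← k3]⟩
  · refine natDegree_mul_le.trans ((add_le_add h1 k1).trans (le_of_eq (by ring)))
  · have e : n + m + 1 + 1 = (n + 1) + (m + 1) := by ring
    rw [e, coeff_mul_add_eq_of_natDegree_le h1 k1, h2, k2]
  · rw [coeff_mul, Finset.sum_eq_add_of_mem (n + 1, m) (n, m + 1), h2, h2', k2, k2']
    · rw [Finset.HasAntidiagonal.mem_antidiagonal]
      show n + 1 + m = n + m + 1
      ring
    · rw [Finset.HasAntidiagonal.mem_antidiagonal]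
      show n + (m + 1) = n + m + 1
      ring
    · intro h
      have := congrArg Prod.fst h
      simp at this
    · rintro ⟨i, j⟩ hij ⟨hn1, hn2⟩
      rw [Finset.HasAntidiagonal.mem_antidiagonal] at hij
      change i + j = n + m + 1 at hij
      show q.coeff i * r.coeff j = 0
      by_cases hi : n + 1 < i
      · rw [coeff_eq_zero_of_natDegree_lt (lt_of_le_of_lt h1 hi), zero_mul]
      · by_cases hj : m + 1 < j
        · rw [coeff_eq_zero_of_natDegree_lt (lt_of_le_of_lt k1 hj), mul_zero]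
        · exfalso
          have h4 : i = n + 1 ∧ j = m ∨ i = n ∧ j = m + 1 := by omega
          rcases h4 with ⟨rfl, rfl⟩ | ⟨rfl, rfl⟩
          · exact hn1 rfl
          · exact hn2 rfl

/-- if the leading coefficient vanishes then the degree is smaller -/
theorem HasTop2.drop {f : K → K} {n : ℕ} {c : K} (hf : HasTop2 f n 0 c) : HasTop f n c := by
  obtain ⟨q, h1, h2, h2', h3⟩ := hf
  refine ⟨q, ?_, h2', h3⟩
  rw [natDegree_le_iff_coeff_eq_zero]
  intro N hN
  rcases Nat.lt_or_ge (n + 1) N with h | h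
  · exact coeff_eq_zero_of_natDegree_lt (lt_of_le_of_lt h1 h)
  · have : N = n + 1 := by omega
    rw [this, h2]

theorem hasTop2_one {f : K → K} (e0 e1 : K) (h : ∀ t, f t = e0 + e1 * t) :
    HasTop2 f 0 e1 e0 := by
  refine ⟨C e1 * X + C e0, by compute_degree, ?_, ?_, fun t => by simp [h]; ring⟩
  · simp [coeff_X, coeff_C]
  · simp [coeff_X, coeff_C]

theorem hasTop2_two {f : K → K} (e0 e1 e2 : K) (h : ∀ t, f t = e0 + e1 * t + e2 * t ^ 2) :
    HasTop2 f 1 e2 e1 := by
  refine ⟨C e2 * X ^ 2 + C e1 * X + C e0, by compute_degree, ?_, ?_,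
    fun t => by simp [h]; ring⟩
  · simp [coeff_X, coeff_C, coeff_X_pow]
  · simp [coeff_X, coeff_C, coeff_X_pow]

theorem hasTop2_three {f : K → K} (e0 e1 e2 e3 : K)
    (h : ∀ t, f t = e0 + e1 * t + e2 * t ^ 2 + e3 * t ^ 3) : HasTop2 f 2 e3 e2 := by
  refine ⟨C e3 * X ^ 3 + C e2 * X ^ 2 + C e1 * X + C e0, by compute_degree, ?_, ?_,
    fun t => by simp [h]; ring⟩
  · simp [coeff_X, coeff_C, coeff_X_pow]
  · simp [coeff_X, coeff_C, coeff_X_pow]

theorem hasTop2_four {f : K → K} (e0 e1 e2 e3 e4 : K)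
    (h : ∀ t, f t = e0 + e1 * t + e2 * t ^ 2 + e3 * t ^ 3 + e4 * t ^ 4) :
    HasTop2 f 3 e4 e3 := by
  refine ⟨C e4 * X ^ 4 + C e3 * X ^ 3 + C e2 * X ^ 2 + C e1 * X + C e0, by compute_degree,
    ?_, ?_, fun t => by simp [h]; ring⟩
  · simp [coeff_X, coeff_C, coeff_X_pow]
  · simp [coeff_X, coeff_C, coeff_X_pow]

theorem HasTop2.top {f : K → K} {n : ℕ} {c c' : K} (hf : HasTop2 f n c c') :
    HasTop f (n + 1) c := by
  obtain ⟨q, h1, h2, -, h3⟩ := hf
  exact ⟨q, h1, h2, h3⟩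

theorem hasTop_one {f : K → K} (e0 e1 : K) (h : ∀ t, f t = e0 + e1 * t) : HasTop f 1 e1 :=
  (hasTop2_one e0 e1 h).top

theorem hasTop_two {f : K → K} (e0 e1 e2 : K) (h : ∀ t, f t = e0 + e1 * t + e2 * t ^ 2) :
    HasTop f 2 e2 := (hasTop2_two e0 e1 e2 h).top

theorem hasTop_three {f : K → K} (e0 e1 e2 e3 : K)
    (h : ∀ t, f t = e0 + e1 * t + e2 * t ^ 2 + e3 * t ^ 3) : HasTop f 3 e3 :=
  (hasTop2_three e0 e1 e2 e3 h).top

/-- `∑ x^i = 0` for `i < p - 1` and `∑ x^(p-1) = -1` over `ZMod p`. -/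
theorem HasTop.sum_eq {p : ℕ} [Fact p.Prime] {f : ZMod p → ZMod p} {c : ZMod p}
    (hf : HasTop f (p - 1) c) : ∑ j ∈ Finset.range p, f (j : ZMod p) = -c := by
  obtain ⟨q, h1, h2, h3⟩ := hf
  have hp : p.Prime := Fact.out
  have e1 : ∑ j ∈ Finset.range p, f (j : ZMod p) = ∑ x : ZMod p, f x := by
    refine Finset.sum_bij' (fun j _ => (j : ZMod p)) (fun x _ => x.val) ?_ ?_ ?_ ?_ ?_
    · intro j _
      exact Finset.mem_univ _
    · intro x _
      rw [Finset.mem_range]
      exact ZMod.val_lt x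
    · intro j hj
      rw [Finset.mem_range] at hj
      exact ZMod.val_cast_of_lt hj
    · intro x _
      exact ZMod.natCast_zmod_val x
    · intro j _
      rfl
  have e2 : ∀ x : ZMod p, f x = ∑ i ∈ Finset.range (p - 1 + 1), q.coeff i * x ^ i := by
    intro x
    rw [h3 x]
    exact eval_eq_sum_range' (Nat.lt_succ_of_le h1) x
  rw [e1, Finset.sum_congr rfl (fun x _ => e2 x), Finset.sum_comm, Finset.sum_range_succ, h2]
  have e3 : ∑ x ∈ Finset.range (p - 1), ∑ y : ZMod p, q.coeff x * y ^ x = 0 := by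
    apply Finset.sum_eq_zero
    intro i hi
    rw [Finset.mem_range] at hi
    rw [← Finset.mul_sum, FiniteField.sum_pow_lt_card_sub_one (ZMod p) i
      (by rw [ZMod.card]; exact hi), mul_zero]
  have e4 : ∑ y : ZMod p, y ^ (p - 1) = -1 := by
    have h4 : ∀ y : ZMod p, y ^ (p - 1) = if y = 0 then 0 else 1 := by
      intro y
      by_cases hy : y = 0
      · rw [if_pos hy, hy, zero_pow]
        have := hp.two_le
        omega
      · rw [if_neg hy, ZMod.pow_card_sub_one_eq_one hy]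
    rw [Finset.sum_congr rfl (fun y _ => h4 y)]
    have h5 : ∀ y : ZMod p, (if y = 0 then (0 : ZMod p) else 1) = 1 - if y = 0 then 1 else 0 := by
      intro y
      split_ifs <;> simp
    rw [Finset.sum_congr rfl (fun y _ => h5 y), Finset.sum_sub_distrib]
    simp
  rw [e3, ← Finset.mul_sum, e4, zero_add, mul_neg, mul_one]

end Helper44.HU
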