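import Pool.Agent.Helper44.HU.Gam
import Pool.Agent.Helper44.HU.LieC
import Pool.Agent.Helper44.HU.Poly

/-!
# Leading coefficients of the entries of `g * exp(t U)`

Write `X = exp(t U)`. By `Par.exp_eq`, for each of the nine entries `ρ` (which are additive and
`T4 K`-linear: `ρ (k • g) = k * ρ g`), with `G1 = g * U`, `G2 = g * (U * U)`:
* `(ρ (g X)).e0 = (ρ g).e0 + t (ρ G1).e0 + t^2/2 (ρ G2).e0`,
* `(ρ (g X)).e1 = (ρ g).e1 + t (ρ G1).e1 + t^2/2 (ρ G2).e1`,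
* `(ρ (g X)).e2 = (ρ g).e2 + t (ρ G1).e2 + t^2/2 (ρ G2).e2 + t^3/6 T (ρ G1).e0
     + t^4/24 T (ρ G2).e0`,
* `(ρ (g X)).e3 = (ρ g).e3 + t (ρ G1).e3 + t^2/2 (ρ G2).e3
     + t^3/6 (T (ρ G1).e1 + D (ρ g).e0) + t^4/24 (T (ρ G2).e1 + D (ρ G1).e0)`,
and `(ρ G2).e0 = 0` for all nine entries. The numbers `(ρ G1).e0`, `(ρ G1).e1`, `(ρ G2).e1`,
`(ρ G2).e2` come from the definition of `toQ` and `Par.sq_low`, and the relations `Low g`.
-/

namespace Helper44.HU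

open T4 Q

variable {K : Type} [Field K]

/-- `ω = ω(g, v)` -/
def om (g : Q K) (P : Par K) : K := g.u.e0 * P.v1 - g.v.e0 * P.v0

/-- `(c_3 v)` -/
def c3v (g : Q K) (P : Par K) : K := g.r.e1 * P.v0 + g.s.e1 * P.v1

/-- first component of `A_2 v` -/
def Av0 (g : Q K) (P : Par K) : K := g.a.e1 * P.v0 + g.b.e1 * P.v1

/-- second component of `A_2 v` -/
def Av1 (g : Q K) (P : Par K) : K := g.c.e1 * P.v0 + g.d.e1 * P.v1

/-- `P = ω - 2 z` -/
def symP (g : Q K) (P : Par K) : K := om g P - 2 * P.z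

/-- `R = E + 4 z^2 - z ω` -/
def symR (g : Q K) (P : Par K) : K := P.E + 4 * P.z ^ 2 - P.z * om g P

end Helper44.HU
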